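import Pool.Agent.H94.SQ.Lay2

/-!
# The pages
-/

set_option autoImplicit false

namespace H94SQ

/-- some `f`-edge leaves the chunk of `u` and ends in a chunk after the chunk of `v` -/
def tI (f : ℕ → ℕ → Prop) (s u v : ℕ) : Prop :=
  ∃ u2 v2, f u2 v2 ∧ u2 / s = u / s ∧ v / s < v2 / s

/-- some `f`-edge ends in the chunk of `v` and starts in a chunk after the chunk of `u` -/
def tII (f : ℕ → ℕ → Prop) (s u v : ℕ) : Prop :=
  ∃ u2 v2, f u2 v2 ∧ v2 / s = v / s ∧ u / s < u2 / s

open Classical in
/-- first coordinate of the page of an edge `u < v`, where `k` says that it is an `F`-edge -/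
noncomputable def tag (f : ℕ → ℕ → Prop) (row lv : ℕ → ℕ) (P : ℕ → Prop) (s : ℕ) (k : Bool)
    (u v : ℕ) : ℕ :=
  if blk P (row u) = blk P (row v) then
    if P (row u) then
      if k = true then 0
      else if lv u = lv v then 1
      else if tI f s u v then 2 + lv u % 2
      else if tII f s u v then 4 + lv u % 2
      else 6 + lv u % 2
    else
      if k = true then
        if row u = row v then 0
        else if lv u % 2 = lv v % 2 then 1
        else 2 + lv u % 2
      else if lv u = lv v then
        if row u = row v then 4 else 5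
      else if row u = row v then 6 + lv u % 2
      else 8 + lv u % 2
  else 10 + (if k = true then 8 else 0) + (if P (row v) then 4 else 0)
    + 2 * (lv u % 2) + lv v % 2

open Classical in
/-- second coordinate of the page of an edge -/
noncomputable def idx (f : ℕ → ℕ → Prop) (row lv : ℕ → ℕ) (P : ℕ → Prop) (s K : ℕ)
    (k : Bool) (u v : ℕ) : ℕ :=
  if blk P (row u) = blk P (row v) then
    if P (row u) then
      if k = true then 0
      else if lv u = lv v then (v / s) % K
      else if tI f s u v then u % s
      else if tII f s u v then v % s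
      else 0
    else row u - base P (row u)
  else if P (row v) then
    if lv u % 2 = lv v % 2 then (v / s) % K else v % s
  else
    if lv u % 2 = lv v % 2 then (u / s) % K else u % s

theorem tag_lt (f : ℕ → ℕ → Prop) (row lv : ℕ → ℕ) (P : ℕ → Prop) (s : ℕ) (k : Bool)
    (u v : ℕ) : tag f row lv P s k u v < 26 := by
  unfold tag
  have h1 := Nat.mod_lt (lv u) (show 0 < 2 by omega)
  have h2 := Nat.mod_lt (lv v) (show 0 < 2 by omega)
  split_ifs <;> omega

theorem tag_lt' (f : ℕ → ℕ → Prop) (row lv : ℕ → ℕ) (P : ℕ → Prop) (s : ℕ) (k : Bool)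
    (u v : ℕ) (hb : blk P (row u) = blk P (row v)) : tag f row lv P s k u v < 10 := by
  unfold tag
  have h1 := Nat.mod_lt (lv u) (show 0 < 2 by omega)
  have h2 := Nat.mod_lt (lv v) (show 0 < 2 by omega)
  rw [if_pos hb]
  split_ifs <;> omega

theorem eq_of_mod_eq {a b K : ℕ} (hab : a ≤ b) (hK : b - a < K) (h : a % K = b % K) :
    a = b := by
  have h1 : (b - a) % K = 0 := Nat.sub_mod_eq_zero_of_mod_eq h.symm
  rw [Nat.mod_eq_of_lt hK] at h1
  omega

theorem eq_of_div_mod {a b s : ℕ} (h1 : a / s = b / s) (h2 : a % s = b % s) : a = b := by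
  rw [← Nat.div_add_mod a s, ← Nat.div_add_mod b s, h1, h2]

namespace Lay

variable {n s K : ℕ} {F f : ℕ → ℕ → Prop} {row lv pos : ℕ → ℕ} {P : ℕ → Prop}

theorem sep_blk (L : Lay n s K F f row lv pos P) {u v u' v' : ℕ}
    (hu : u < n) (hv : v < n) (hu' : u' < n) (hv' : v' < n)
    (h1 : blk P (row u) < blk P (row u')) (h2 : blk P (row u) < blk P (row v'))
    (h3 : blk P (row v) < blk P (row u')) (h4 : blk P (row v) < blk P (row v')) :
    NC (pos u) (pos v) (pos u') (pos v') :=
  nc_sep (L.pblk _ _ hu hu' h1) (L.pblk _ _ hu hv' h2) (L.pblk _ _ hv hu' h3)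
    (L.pblk _ _ hv hv' h4)

/-- two `f`-edges of type I in the same row with `P` -/
theorem typeI (L : Lay n s K F f row lv pos P) {u v u' v' : ℕ}
    (hf : f u v) (hf' : f u' v') (ht : tI f s u v) (ht' : tI f s u' v')
    (hm : u % s = u' % s) : u = u' ∨ (u / s = u' / s ↔ v / s = v' / s) := by
  have aux : ∀ u v u' v', f u v → f u' v' → tI f s u v → u / s < u' / s →
      v / s = v' / s → False := by
    rintro u v u' v' hf hf' ⟨u2, v2, h1, h2, h3⟩ h4 h5
    have h6 : u2 < u' := by
      by_contra hcon
      have := Nat.div_le_div_right (c := s) (show u' ≤ u2 by omega)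
      omega
    have h7 : v' < v2 := by
      by_contra hcon
      have := Nat.div_le_div_right (c := s) (show v2 ≤ v' by omega)
      omega
    exact L.nf _ _ _ _ h1 hf' ⟨h6, h7⟩
  by_cases h : u / s = u' / s
  · exact Or.inl (eq_of_div_mod h hm)
  · refine Or.inr ⟨fun h1 => absurd h1 h, fun h1 => ?_⟩
    exfalso
    rcases lt_or_gt_of_ne h with h2 | h2
    · exact aux u v u' v' hf hf' ht h2 h1
    · exact aux u' v' u v hf' hf ht' h2 h1.symm

theorem typeII (L : Lay n s K F f row lv pos P) {u v u' v' : ℕ}
    (hf : f u v) (hf' : f u' v') (ht : ¬ tI f s u v) (ht' : ¬ tI f s u' v')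
    (hm : v % s = v' % s) : v = v' ∨ (u / s = u' / s ↔ v / s = v' / s) := by
  by_cases h : v / s = v' / s
  · exact Or.inl (eq_of_div_mod h hm)
  · refine Or.inr ⟨fun h1 => ?_, fun h1 => absurd h1 h⟩
    exfalso
    rcases lt_or_gt_of_ne h with h2 | h2
    · exact ht ⟨u', v', hf', h1.symm, h2⟩
    · exact ht' ⟨u, v, hf, h1, h2⟩

theorem typeIII (L : Lay n s K F f row lv pos P) {u v u' v' : ℕ}
    (hf : f u v) (hf' : f u' v') (ht : ¬ tI f s u v) (ht' : ¬ tI f s u' v')
    (hs : ¬ tII f s u v) (hs' : ¬ tII f s u' v') : (u / s = u' / s ↔ v / s = v' / s) := by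
  constructor
  · intro h1
    by_contra h
    rcases lt_or_gt_of_ne h with h2 | h2
    · exact ht ⟨u', v', hf', h1.symm, h2⟩
    · exact ht' ⟨u, v, hf, h1, h2⟩
  · intro h1
    by_contra h
    rcases lt_or_gt_of_ne h with h2 | h2
    · exact hs ⟨u', v', hf', h1.symm, h2⟩
    · exact hs' ⟨u, v, hf, h1, h2⟩

/-- `k = true`: `F`-edge, `k = false`: `f`-edge -/
def Ed (F f : ℕ → ℕ → Prop) (k : Bool) (u v : ℕ) : Prop :=
  (k = true ∧ F u v) ∨ (k = false ∧ f u v)

/-- inner edges of the rows with `P` -/
theorem innerP (L : Lay n s K F f row lv pos P)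
    (hK : ∀ x y, y < n → P (row x) → row x = row y → x ≤ y → y / s - x / s < K)
    {k k' : Bool} {u v u' v' : ℕ} (he : Ed F f k u v) (he' : Ed F f k' u' v')
    (hP : P (row u)) (hr : row u = row v) (hr' : row u' = row v') (hrr : row u = row u')
    (ht : tag f row lv P s k u v = tag f row lv P s k' u' v')
    (hi : idx f row lv P s K k u v = idx f row lv P s K k' u' v') :
    NC (pos u) (pos v) (pos u') (pos v') := by
  have hP' : P (row u') := hrr ▸ hP
  have m1 := Nat.mod_lt (lv u) (show 0 < 2 by omega)
  have m2 := Nat.mod_lt (lv u') (show 0 < 2 by omega)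
  unfold tag at ht
  unfold idx at hi
  have hb : blk P (row u) = blk P (row v) := by rw [hr]
  have hb' : blk P (row u') = blk P (row v') := by rw [hr']
  rw [if_pos hb, if_pos hP, if_pos hb', if_pos hP'] at ht hi
  rcases he with ⟨rfl, hF⟩ | ⟨rfl, hf⟩ <;> rcases he' with ⟨rfl, hF'⟩ | ⟨rfl, hf'⟩
  · have h1 := L.topF u v hF hr v' (by omega)
    have h2 := L.topF u' v' hF' hr' v (by omega)
    have h3 : v = v' := by omega
    subst h3
    exact nc_self _ _ _
  · simp only [if_true, Bool.false_eq_true, if_false] at ht
    split_ifs at ht <;> omega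
  · simp only [if_true, Bool.false_eq_true, if_false] at ht
    split_ifs at ht <;> omega
  · simp only [Bool.false_eq_true, if_false] at ht hi
    obtain ⟨huv, hv⟩ := L.ltf u v hf
    obtain ⟨huv', hv'⟩ := L.ltf u' v' hf'
    have hPv : P (row v) := hr ▸ hP
    have l1 := L.lvf u v hf
    have l2 := L.lvf u' v' hf'
    have l3 := L.lvm huv.le
    have l4 := L.lvm huv'.le
    have fin : lv u ≠ lv v → lv u' ≠ lv v' → lv u % 2 = lv u' % 2 →
        (u / s = u' / s ↔ v / s = v' / s) → NC (pos u) (pos v) (pos u') (pos v') := by
      intro c1 c2 c3 c4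
      exact L.pbip hf hf' hr hr' hrr hP c3 (by omega) (by omega) c4
    by_cases c : lv u = lv v
    · rw [if_pos c] at ht hi
      by_cases c' : lv u' = lv v'
      · rw [if_pos c'] at ht hi
        refine L.pstar hf hf' c c' hr hr' hrr hP ?_
        rcases le_total v v' with h | h
        · exact eq_of_mod_eq (Nat.div_le_div_right h)
            (hK v v' hv' hPv (by omega) h) hi
        · exact (eq_of_mod_eq (Nat.div_le_div_right h)
            (hK v' v hv (by rw [← hr', ← hrr]; exact hP) (by omega) h) hi.symm).symm
      · rw [if_neg c'] at ht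
        split_ifs at ht <;> omega
    · rw [if_neg c] at ht hi
      by_cases c' : lv u' = lv v'
      · rw [if_pos c'] at ht
        split_ifs at ht <;> omega
      · rw [if_neg c'] at ht hi
        by_cases t : tI f s u v
        · rw [if_pos t] at ht hi
          by_cases t' : tI f s u' v'
          · rw [if_pos t'] at ht hi
            rcases L.typeI hf hf' t t' hi with h | h
            · subst h; exact nc_self' _ _ _
            · exact fin c c' (by omega) h
          · rw [if_neg t'] at ht
            split_ifs at ht <;> omega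
        · rw [if_neg t] at ht hi
          by_cases t' : tI f s u' v'
          · rw [if_pos t'] at ht
            split_ifs at ht <;> omega
          · rw [if_neg t'] at ht hi
            by_cases r : tII f s u v
            · rw [if_pos r] at ht hi
              by_cases r' : tII f s u' v'
              · rw [if_pos r'] at ht hi
                rcases L.typeII hf hf' t t' hi with h | h
                · subst h; exact nc_self _ _ _
                · exact fin c c' (by omega) h
              · rw [if_neg r'] at ht
                omega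
            · rw [if_neg r] at ht hi
              by_cases r' : tII f s u' v'
              · rw [if_pos r'] at ht
                omega
              · rw [if_neg r'] at ht hi
                exact fin c c' (by omega) (L.typeIII hf hf' t t' r r')

/-- inner edges of the bundles -/
theorem innerB (L : Lay n s K F f row lv pos P)
    {k k' : Bool} {u v u' v' : ℕ} (he : Ed F f k u v) (he' : Ed F f k' u' v')
    (hP : ¬ P (row u)) (hb : blk P (row u) = blk P (row v))
    (hb' : blk P (row u') = blk P (row v')) (hbb : blk P (row u) = blk P (row u'))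
    (ht : tag f row lv P s k u v = tag f row lv P s k' u' v')
    (hi : idx f row lv P s K k u v = idx f row lv P s K k' u' v') :
    NC (pos u) (pos v) (pos u') (pos v') := by
  have hP' : ¬ P (row u') := P_of_blk_eq hP hbb
  have hPv : ¬ P (row v) := P_of_blk_eq hP hb
  have hPv' : ¬ P (row v') := P_of_blk_eq hP' hb'
  have m1 := Nat.mod_lt (lv u) (show 0 < 2 by omega)
  have m2 := Nat.mod_lt (lv u') (show 0 < 2 by omega)
  unfold tag at ht
  unfold idx at hi
  rw [if_pos hb, if_neg hP, if_pos hb', if_neg hP'] at ht hi
  have b1 := base_eq_of_blk_eq' hbb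
  have b2 := base_le (P := P) (row u)
  have b3 := base_le (P := P) (row u')
  have hrr : row u = row u' := by omega
  rcases he with ⟨rfl, hF⟩ | ⟨rfl, hf⟩ <;> rcases he' with ⟨rfl, hF'⟩ | ⟨rfl, hf'⟩
  · obtain ⟨huv, hv⟩ := L.ltF u v hF
    obtain ⟨huv', hv'⟩ := L.ltF u' v' hF'
    have r1 := L.rowF u v hF
    have r2 := L.rowF u' v' hF'
    have r3 := L.rowm huv.le
    have r4 := L.rowm huv'.le
    have n1 := L.nF u v u' v' hF hF'
    have n2 := L.nF u' v' u v hF' hF
    simp only [if_true] at ht
    by_cases c : row u = row v
    · rw [if_pos c] at ht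
      by_cases c' : row u' = row v'
      · have h1 := L.topF u v hF c v' (by omega)
        have h2 := L.topF u' v' hF' c' v (by omega)
        have h3 : v = v' := by omega
        subst h3
        exact nc_self _ _ _
      · rw [if_neg c'] at ht
        split_ifs at ht <;> omega
    · rw [if_neg c] at ht
      by_cases c' : row u' = row v'
      · rw [if_pos c'] at ht
        split_ifs at ht <;> omega
      · rw [if_neg c'] at ht
        by_cases d : lv u % 2 = lv v % 2
        · rw [if_pos d] at ht
          by_cases d' : lv u' % 2 = lv v' % 2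
          · exact L.tree hF hF' hrr (by omega) (by omega) hb d d'
          · rw [if_neg d'] at ht
            omega
        · rw [if_neg d] at ht
          by_cases d' : lv u' % 2 = lv v' % 2
          · rw [if_pos d'] at ht
            omega
          · rw [if_neg d'] at ht
            exact L.bip (by omega) hv (by omega) hv' (by omega) (by omega) hrr (by omega) hP
              hPv hb (by omega) (by omega) d
  · simp only [if_true, Bool.false_eq_true, if_false] at ht
    split_ifs at ht <;> omega
  · simp only [if_true, Bool.false_eq_true, if_false] at ht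
    split_ifs at ht <;> omega
  · obtain ⟨huv, hv⟩ := L.ltf u v hf
    obtain ⟨huv', hv'⟩ := L.ltf u' v' hf'
    have r1 := L.rowf u v hf
    have r2 := L.rowf u' v' hf'
    have r3 := L.rowm huv.le
    have r4 := L.rowm huv'.le
    have l1 := L.lvf u v hf
    have l2 := L.lvf u' v' hf'
    have l3 := L.lvm huv.le
    have l4 := L.lvm huv'.le
    have n1 := L.nf u v u' v' hf hf'
    have n2 := L.nf u' v' u v hf' hf
    simp only [Bool.false_eq_true, if_false] at ht
    by_cases c : lv u = lv v
    · rw [if_pos c] at ht
      by_cases c' : lv u' = lv v'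
      · rw [if_pos c'] at ht
        by_cases d : row u = row v
        · rw [if_pos d] at ht
          by_cases d' : row u' = row v'
          · exact L.star hf hf' c c' d d' hrr hP
          · rw [if_neg d'] at ht; omega
        · rw [if_neg d] at ht
          by_cases d' : row u' = row v'
          · rw [if_pos d'] at ht; omega
          · exact L.star' hf hf' c c' (by omega) hrr (by omega)
      · rw [if_neg c'] at ht
        split_ifs at ht <;> omega
    · rw [if_neg c] at ht
      by_cases c' : lv u' = lv v'
      · rw [if_pos c'] at ht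
        split_ifs at ht <;> omega
      · rw [if_neg c'] at ht
        have hrv : row v = row v' ∧ lv u % 2 = lv u' % 2 := by
          split_ifs at ht <;> omega
        exact L.bip (by omega) hv (by omega) hv' (by omega) (by omega) hrr hrv.1 hP
          hPv hb hrv.2 (by omega) (by omega)

/-- a monotone relation -/
theorem Ed.mono (L : Lay n s K F f row lv pos P) {k : Bool} {u v u' v' : ℕ}
    (he : Ed F f k u v) (he' : Ed F f k u' v') : ¬ (u < u' ∧ v' < v) := by
  rcases he with ⟨rfl, hF⟩ | ⟨rfl, hf⟩
  · rcases he' with ⟨_, hF'⟩ | ⟨h, _⟩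
    · exact L.nF _ _ _ _ hF hF'
    · exact absurd h (by decide)
  · rcases he' with ⟨h, _⟩ | ⟨_, hf'⟩
    · exact absurd h (by decide)
    · exact L.nf _ _ _ _ hf hf'

theorem Ed.lt (L : Lay n s K F f row lv pos P) {k : Bool} {u v : ℕ}
    (he : Ed F f k u v) : u < v ∧ v < n := by
  rcases he with ⟨rfl, hF⟩ | ⟨rfl, hf⟩
  · exact L.ltF _ _ hF
  · exact L.ltf _ _ hf

theorem Ed.step (L : Lay n s K F f row lv pos P) {k : Bool} {u v : ℕ}
    (he : Ed F f k u v) : row v ≤ row u + 1 := by
  rcases he with ⟨rfl, hF⟩ | ⟨rfl, hf⟩
  · exact L.rowF _ _ hF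
  · exact L.rowf _ _ hf

/-- edges between different blocks -/
theorem outer (L : Lay n s K F f row lv pos P)
    (hK : ∀ x y, y < n → P (row x) → row x = row y → x ≤ y → y / s - x / s < K)
    {k k' : Bool} {u v u' v' : ℕ} (he : Ed F f k u v) (he' : Ed F f k' u' v')
    (hb : blk P (row u) ≠ blk P (row v)) (hb' : blk P (row u') ≠ blk P (row v'))
    (ht : tag f row lv P s k u v = tag f row lv P s k' u' v')
    (hi : idx f row lv P s K k u v = idx f row lv P s K k' u' v') :
    NC (pos u) (pos v) (pos u') (pos v') := by
  obtain ⟨huv, hv⟩ := Ed.lt L he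
  obtain ⟨huv', hv'⟩ := Ed.lt L he'
  have r1 := Ed.step L he
  have r2 := Ed.step L he'
  have r3 := L.rowm huv.le
  have r4 := L.rowm huv'.le
  have hr : row v = row u + 1 := by
    rcases r3.lt_or_eq with h | h
    · omega
    · exact absurd (by rw [h]) hb
  have hr' : row v' = row u' + 1 := by
    rcases r4.lt_or_eq with h | h
    · omega
    · exact absurd (by rw [h]) hb'
  have hor : P (row u) ∨ P (row v) := by
    by_contra hcon
    apply hb
    rw [hr] at hcon ⊢
    rw [blk_succ_not hcon]
  have hor' : P (row u') ∨ P (row v') := by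
    by_contra hcon
    apply hb'
    rw [hr'] at hcon ⊢
    rw [blk_succ_not hcon]
  have hbs : blk P (row v) = blk P (row u) + 1 := by
    rw [hr] at hor ⊢
    exact blk_succ_of hor
  have hbs' : blk P (row v') = blk P (row u') + 1 := by
    rw [hr'] at hor' ⊢
    exact blk_succ_of hor'
  unfold tag at ht
  unfold idx at hi
  rw [if_neg hb, if_neg hb'] at ht hi
  have m1 := Nat.mod_lt (lv u) (show 0 < 2 by omega)
  have m2 := Nat.mod_lt (lv u') (show 0 < 2 by omega)
  have m3 := Nat.mod_lt (lv v) (show 0 < 2 by omega)
  have m4 := Nat.mod_lt (lv v') (show 0 < 2 by omega)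
  have hk : k = k' ∧ (P (row v) ↔ P (row v')) ∧ lv u % 2 = lv u' % 2 ∧
      lv v % 2 = lv v' % 2 := by
    by_cases p : P (row v) <;> by_cases p' : P (row v') <;> cases k <;> cases k' <;>
      simp only [p, p', if_true, if_false, Bool.false_eq_true] at ht <;>
      first
        | (refine ⟨rfl, by tauto, ?_, ?_⟩ <;> omega)
        | (exfalso; omega)
  obtain ⟨rfl, hPP, hcu, hcv⟩ := hk
  have n1 := Ed.mono L he he'
  have n2 := Ed.mono L he' he
  by_cases p : P (row v)
  · have p' : P (row v') := hPP.1 p
    have q : ¬ P (row u) := fun h => L.PP _ h (hr ▸ p)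
    have q' : ¬ P (row u') := fun h => L.PP _ h (hr' ▸ p')
    rw [if_pos p, if_pos p'] at hi
    rcases lt_trichotomy (blk P (row u)) (blk P (row u')) with h | h | h
    · have h1 : blk P (row v) ≠ blk P (row u') := by
        intro h2
        exact q' (eq_of_blk_eq p h2 ▸ p)
      exact L.sep_blk (by omega) hv (by omega) hv' h (by omega) (by omega) (by omega)
    · have h1 : row v = row v' := eq_of_blk_eq p (by omega)
      refine L.crossV (by omega) hv (by omega) hv' n1 (by tauto) (by omega) h1 q p (by omega)
        hcu hcv ?_ ?_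
      · intro c
        rw [if_pos c, if_pos (by omega)] at hi
        rcases le_total v v' with g | g
        · exact eq_of_mod_eq (Nat.div_le_div_right g) (hK v v' hv' p h1 g) hi
        · exact (eq_of_mod_eq (Nat.div_le_div_right g) (hK v' v hv p' h1.symm g)
            hi.symm).symm
      · intro c
        rw [if_neg c, if_neg (by omega)] at hi
        exact hi
    · have h1 : blk P (row v') ≠ blk P (row u) := by
        intro h2
        exact q (eq_of_blk_eq p' h2 ▸ p')
      exact (L.sep_blk (by omega) hv' (by omega) hv h (by omega) (by omega) (by omega)).symm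
  · have p' : ¬ P (row v') := fun h => p (hPP.2 h)
    have q : P (row u) := by tauto
    have q' : P (row u') := by tauto
    rw [if_neg p, if_neg p'] at hi
    rcases lt_trichotomy (blk P (row u)) (blk P (row u')) with h | h | h
    · have h1 : blk P (row v) ≠ blk P (row u') := by
        intro h2
        exact p (eq_of_blk_eq q' h2.symm ▸ q')
      exact L.sep_blk (by omega) hv (by omega) hv' h (by omega) (by omega) (by omega)
    · have h1 : row u = row u' := eq_of_blk_eq q h
      refine L.crossU (by omega) hv (by omega) hv' n1 (by tauto) h1 (by omega) q p (by omega)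
        hcu hcv ?_ ?_
      · intro c
        rw [if_pos c, if_pos (by omega)] at hi
        rcases le_total u u' with g | g
        · exact eq_of_mod_eq (Nat.div_le_div_right g) (hK u u' (by omega) q h1 g) hi
        · exact (eq_of_mod_eq (Nat.div_le_div_right g) (hK u' u (by omega) q' h1.symm g)
            hi.symm).symm
      · intro c
        rw [if_neg c, if_neg (by omega)] at hi
        exact hi
    · have h1 : blk P (row v') ≠ blk P (row u) := by
        intro h2
        exact p' (eq_of_blk_eq q h2.symm ▸ q)
      exact (L.sep_blk (by omega) hv' (by omega) hv h (by omega) (by omega) (by omega)).symm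

/-- Two edges on the same page do not cross. -/
theorem noncross (L : Lay n s K F f row lv pos P)
    (hK : ∀ x y, y < n → P (row x) → row x = row y → x ≤ y → y / s - x / s < K)
    {k k' : Bool} {u v u' v' : ℕ} (he : Ed F f k u v) (he' : Ed F f k' u' v')
    (ht : tag f row lv P s k u v = tag f row lv P s k' u' v')
    (hi : idx f row lv P s K k u v = idx f row lv P s K k' u' v') :
    NC (pos u) (pos v) (pos u') (pos v') := by
  obtain ⟨huv, hv⟩ := Ed.lt L he
  obtain ⟨huv', hv'⟩ := Ed.lt L he'
  by_cases hb : blk P (row u) = blk P (row v)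
  · by_cases hb' : blk P (row u') = blk P (row v')
    · rcases lt_trichotomy (blk P (row u)) (blk P (row u')) with h | h | h
      · exact L.sep_blk (by omega) hv (by omega) hv' h (by omega) (by omega) (by omega)
      · by_cases hP : P (row u)
        · exact L.innerP hK he he' hP (eq_of_blk_eq hP hb)
            (eq_of_blk_eq (eq_of_blk_eq hP h ▸ hP) hb') (eq_of_blk_eq hP h) ht hi
        · exact L.innerB he he' hP hb hb' h ht hi
      · exact (L.sep_blk (by omega) hv' (by omega) hv h (by omega) (by omega)
          (by omega)).symm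
    · exfalso
      have h1 := tag_lt' f row lv P s k u v hb
      rw [ht] at h1
      unfold tag at h1
      rw [if_neg hb'] at h1
      omega
  · by_cases hb' : blk P (row u') = blk P (row v')
    · exfalso
      have h1 := tag_lt' f row lv P s k' u' v' hb'
      rw [← ht] at h1
      unfold tag at h1
      rw [if_neg hb] at h1
      omega
    · exact L.outer hK he he' hb hb' ht hi

end Lay

end H94SQ
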