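import Pool.Agent.H94.SQ.Lev
import Pool.Agent.H94.SQ.Page

/-!
# Stack layouts of graphs with a 2-queue layout
-/

set_option autoImplicit false

namespace H94SQ

open Finset

/-- signed key -/
noncomputable def skey (F : ℕ → ℕ → Prop) (row lv : ℕ → ℕ) (P : ℕ → Prop) (n s : ℕ)
    (v : ℕ) : ℤ :=
  if lv v % 2 = 0 then (kap F row P n s v : ℤ) else -(kap F row P n s v : ℤ)

/-- the key of a vertex: block, colour, signed key, vertex -/
noncomputable def fkey (F : ℕ → ℕ → Prop) (row lv : ℕ → ℕ) (P : ℕ → Prop) (n s : ℕ)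
    (v : ℕ) : ℕ ×ₗ (ℕ ×ₗ (ℤ ×ₗ ℕ)) :=
  toLex (blk P (row v), toLex (lv v % 2, toLex (skey F row lv P n s v, v)))

/-- the position of a vertex -/
noncomputable def fpos (F : ℕ → ℕ → Prop) (row lv : ℕ → ℕ) (P : ℕ → Prop) (n s : ℕ)
    (v : ℕ) : ℕ :=
  ((range n).filter fun w => fkey F row lv P n s w < fkey F row lv P n s v).card

section
variable {F : ℕ → ℕ → Prop} {row lv : ℕ → ℕ} {P : ℕ → Prop} {n s : ℕ}

theorem fpos_lt {u v : ℕ} (hu : u < n) (h : fkey F row lv P n s u < fkey F row lv P n s v) :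
    fpos F row lv P n s u < fpos F row lv P n s v := by
  unfold fpos
  refine card_lt_card ?_
  rw [Finset.ssubset_iff_of_subset]
  · exact ⟨u, mem_filter.2 ⟨mem_range.2 hu, h⟩, fun h1 => lt_irrefl _ (mem_filter.1 h1).2⟩
  · intro w hw
    rw [mem_filter] at hw ⊢
    exact ⟨hw.1, hw.2.trans h⟩

theorem fkey_inj {u v : ℕ} (h : fkey F row lv P n s u = fkey F row lv P n s v) : u = v := by
  unfold fkey at h
  have h1 := congrArg (fun z => (ofLex (ofLex (ofLex z).2).2).2) h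
  exact h1

theorem fpos_inj {u v : ℕ} (hu : u < n) (hv : v < n)
    (h : fpos F row lv P n s u = fpos F row lv P n s v) : u = v := by
  rcases lt_trichotomy (fkey F row lv P n s u) (fkey F row lv P n s v) with h1 | h1 | h1
  · have := fpos_lt hu h1; omega
  · exact fkey_inj h1
  · have := fpos_lt hv h1; omega

theorem fpos_bound {v : ℕ} (hv : v < n) : fpos F row lv P n s v < n := by
  have h1 : ((range n).filter fun w => fkey F row lv P n s w < fkey F row lv P n s v).card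
      < (range n).card := by
    refine card_lt_card ?_
    rw [Finset.ssubset_iff_of_subset (filter_subset _ _)]
    exact ⟨v, mem_range.2 hv, fun h1 => lt_irrefl _ (mem_filter.1 h1).2⟩
  rw [card_range] at h1
  exact h1

theorem fkey_lt_blk {u v : ℕ} (h : blk P (row u) < blk P (row v)) :
    fkey F row lv P n s u < fkey F row lv P n s v := by
  unfold fkey
  rw [Prod.Lex.toLex_lt_toLex]
  exact Or.inl h

theorem fkey_lt_col {u v : ℕ} (h0 : blk P (row u) = blk P (row v))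
    (h1 : lv u % 2 < lv v % 2) :
    fkey F row lv P n s u < fkey F row lv P n s v := by
  unfold fkey
  rw [Prod.Lex.toLex_lt_toLex]
  refine Or.inr ⟨h0, ?_⟩
  rw [Prod.Lex.toLex_lt_toLex]
  exact Or.inl h1

theorem fkey_lt_key {u v : ℕ} (h0 : blk P (row u) = blk P (row v))
    (h1 : lv u % 2 = lv v % 2) (h2 : skey F row lv P n s u < skey F row lv P n s v) :
    fkey F row lv P n s u < fkey F row lv P n s v := by
  unfold fkey
  rw [Prod.Lex.toLex_lt_toLex]
  refine Or.inr ⟨h0, ?_⟩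
  rw [Prod.Lex.toLex_lt_toLex]
  refine Or.inr ⟨h1, ?_⟩
  rw [Prod.Lex.toLex_lt_toLex]
  exact Or.inl h2

end

/-- Vertices are numbers below `n`, `E` is a set of edges `u < v` without three pairwise nested
edges. -/
structure QG (n : ℕ) (E : ℕ → ℕ → Prop) : Prop where
  lt : ∀ u v, E u v → u < v ∧ v < n
  nest : ∀ u v x y z w, E u v → E x y → E z w → ¬ (u < x ∧ x < z ∧ w < y ∧ y < v)

/-- outermost edges -/
def eF (E : ℕ → ℕ → Prop) (u v : ℕ) : Prop := E u v ∧ ¬ ∃ x y, E x y ∧ x < u ∧ v < y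

/-- the other edges -/
def ef (E : ℕ → ℕ → Prop) (u v : ℕ) : Prop := E u v ∧ ∃ x y, E x y ∧ x < u ∧ v < y

theorem layout {n s K : ℕ} {E : ℕ → ℕ → Prop} (hE : QG n E) (P : ℕ → Prop)
    (PP : ∀ t, P t → ¬ P (t + 1)) (hs : 0 < s) :
    Lay n s K (eF E) (ef E) (lev E) (lev (ef E)) (fpos (eF E) (lev E) (lev (ef E)) P n s) P where
  s0 := hs
  ltF := fun u v h => hE.lt u v h.1
  ltf := fun u v h => hE.lt u v h.1
  nF := fun u v x y h h' hh => h'.2 ⟨u, v, h.1, hh.1, hh.2⟩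
  nf := by
    intro u v x y h h' hh
    obtain ⟨h1, x', y', h2, h3, h4⟩ := h
    exact hE.nest x' y' u v x y h2 h1 h'.1 ⟨h3, hh.1, hh.2, h4⟩
  rowm := lev_mono
  rows := lev_succ_le
  row0 := lev_zero
  rown := fun v hv => (lev_le_self v).trans hv.le
  rowF := fun u v h => lev_edge (hE.lt u v h.1).1 h.1
  rowf := fun u v h => lev_edge (hE.lt u v h.1).1 h.1
  topF := by
    intro u v h hr z hz
    refine lev_top (Q := eF E) (E := E) ?_ h hr z hz
    intro x y u' w hxy huw hh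
    exact hxy.2 ⟨u', w, huw, hh.1, hh.2⟩
  lvm := lev_mono
  lvf := fun u v h => lev_edge (hE.lt u v h.1).1 h
  topf := by
    intro u v h hr z hz
    refine lev_top (Q := ef E) (E := ef E) ?_ h hr z hz
    intro x y u' w hxy huw hh
    obtain ⟨h1, x', y', h2, h3, h4⟩ := huw
    exact hE.nest x' y' u' w x y h2 h1 hxy.1 ⟨h3, hh.1, hh.2, h4⟩
  PP := PP
  pblk := fun u v hu _ h => fpos_lt hu (fkey_lt_blk h)
  pcol := fun u v hu _ h h1 h2 => fpos_lt hu (fkey_lt_col h (by omega))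
  pA := by
    intro u v hu _ h h1 h2 h3
    refine fpos_lt hu (fkey_lt_key h (by omega) ?_)
    unfold skey
    rw [if_pos h1, if_pos h2]
    exact_mod_cast h3
  pB := by
    intro u v hu _ h h1 h2 h3
    refine fpos_lt hu (fkey_lt_key h (by omega) ?_)
    unfold skey
    rw [if_neg (by omega), if_neg (by omega)]
    omega

/-- second coordinates of pages are below `K` -/
theorem idx_lt {n s K : ℕ} {f : ℕ → ℕ → Prop} {row lv : ℕ → ℕ} {P : ℕ → Prop}
    (hs : 0 < s) (hsK : s ≤ K)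
    (hB : ∀ u, u < n → ¬ P (row u) → row u - base P (row u) < K) (k : Bool) {u : ℕ} (v : ℕ)
    (hu : u < n) : idx f row lv P s K k u v < K := by
  have h1 : ∀ a, a % K < K := fun a => Nat.mod_lt a (by omega)
  have h2 : ∀ a, a % s < K := fun a => (Nat.mod_lt a hs).trans_le hsK
  unfold idx
  by_cases hP : P (row u)
  · rw [if_pos hP]
    split_ifs <;> first | exact h1 _ | exact h2 _ | omega
  · rw [if_neg hP]
    split_ifs <;> first | exact h1 _ | exact h2 _ | exact hB u hu hP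

/-- A 2-queue layout, in the form of the frozen statements. -/
def TwoQueue {n : ℕ} (G : SimpleGraph (Fin n)) (σ : Equiv.Perm (Fin n)) (c : Fin n → Fin n → Fin 2) :
    Prop :=
  ∀ a b x y : Fin n, G.Adj a b → G.Adj x y → σ a < σ b → σ x < σ y →
    c a b = c x y → ¬ (σ a < σ x ∧ σ x < σ y ∧ σ y < σ b)

/-- edges as pairs of positions in the queue layout -/
def gE {n : ℕ} (G : SimpleGraph (Fin n)) (σ : Equiv.Perm (Fin n)) (u v : ℕ) : Prop :=
  ∃ a b : Fin n, G.Adj a b ∧ (σ a : ℕ) = u ∧ (σ b : ℕ) = v ∧ u < v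

theorem gE_QG {n : ℕ} {G : SimpleGraph (Fin n)} {σ : Equiv.Perm (Fin n)}
    {c : Fin n → Fin n → Fin 2} (h : TwoQueue G σ c) : QG n (gE G σ) where
  lt := by
    rintro u v ⟨a, b, _, _, hb, huv⟩
    exact ⟨huv, hb ▸ (σ b).2⟩
  nest := by
    rintro u v x y z w ⟨a, b, hab, rfl, rfl, h1⟩ ⟨a', b', hab', rfl, rfl, h2⟩
      ⟨a'', b'', hab'', rfl, rfl, h3⟩ ⟨h4, h5, h6, h7⟩
    have k1 := h a b a' b' hab hab' h1 h2
    have k2 := h a b a'' b'' hab hab'' h1 h3
    have k3 := h a' b' a'' b'' hab' hab'' h2 h3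
    have n1 : c a b ≠ c a' b' := fun hc => k1 hc ⟨h4, h2, h7⟩
    have n2 : c a b ≠ c a'' b'' := fun hc => k2 hc ⟨by
      show (σ a : ℕ) < σ a''
      omega, h3, by
      show (σ b'' : ℕ) < σ b
      omega⟩
    have n3 : c a' b' ≠ c a'' b'' := fun hc => k3 hc ⟨h5, h3, h6⟩
    omega

open Classical in
/-- the page of a pair of vertices -/
noncomputable def page {n : ℕ} (G : SimpleGraph (Fin n)) (σ : Equiv.Perm (Fin n))
    (P : ℕ → Prop) (s K : ℕ) (a b : Fin n) : ℕ :=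
  tag (ef (gE G σ)) (lev (gE G σ)) (lev (ef (gE G σ))) P s
      (decide (eF (gE G σ) (min (σ a : ℕ) (σ b)) (max (σ a : ℕ) (σ b))))
      (min (σ a : ℕ) (σ b)) (max (σ a : ℕ) (σ b)) * K +
    idx (ef (gE G σ)) (lev (gE G σ)) (lev (ef (gE G σ))) P s K
      (decide (eF (gE G σ) (min (σ a : ℕ) (σ b)) (max (σ a : ℕ) (σ b))))
      (min (σ a : ℕ) (σ b)) (max (σ a : ℕ) (σ b))

theorem exists_stack {n s K M : ℕ} {G : SimpleGraph (Fin n)} {σ : Equiv.Perm (Fin n)}
    {c : Fin n → Fin n → Fin 2} (h : TwoQueue G σ c) (P : ℕ → Prop)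
    (PP : ∀ t, P t → ¬ P (t + 1)) (hs : 0 < s) (hsK : s ≤ K)
    (hK : ∀ x y, y < n → P (lev (gE G σ) x) → lev (gE G σ) x = lev (gE G σ) y → x ≤ y →
      y / s - x / s < K)
    (hB : ∀ u, u < n → ¬ P (lev (gE G σ) u) →
      lev (gE G σ) u - base P (lev (gE G σ) u) < K)
    (hM : ∀ k u v, tag (ef (gE G σ)) (lev (gE G σ)) (lev (ef (gE G σ))) P s k u v < M) :
    ∃ τ : Equiv.Perm (Fin n), ∃ d : Fin n → Fin n → Fin (M * K),
      ∀ a b x y : Fin n, G.Adj a b → G.Adj x y → τ a < τ b → τ x < τ y →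
        d a b = d x y → ¬ (τ a < τ x ∧ τ x < τ b ∧ τ b < τ y) := by
  classical
  set E := gE G σ with hE
  have hQ : QG n E := gE_QG h
  have L := layout (K := K) hQ P PP hs
  have hMK : 0 < M * K := Nat.mul_pos (by have := hM true 0 0; omega) (by omega)
  -- the new order
  let p : Fin n → Fin n := fun a =>
    ⟨fpos (eF E) (lev E) (lev (ef E)) P n s (σ a : ℕ), fpos_bound (σ a).2⟩
  have hp : Function.Injective p := by
    intro a b hab
    have h1 := congrArg Fin.val hab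
    have h2 := fpos_inj (σ a).2 (σ b).2 h1
    exact σ.injective (Fin.ext h2)
  let τ : Equiv.Perm (Fin n) := Equiv.ofBijective p (Finite.injective_iff_bijective.1 hp)
  have hτ : ∀ a, (τ a : ℕ) = fpos (eF E) (lev E) (lev (ef E)) P n s (σ a : ℕ) := fun a => rfl
  have hpage : ∀ a b, page G σ P s K a b < M * K := by
    intro a b
    unfold page
    have h1 := hM (decide (eF E (min (σ a : ℕ) (σ b)) (max (σ a : ℕ) (σ b))))
      (min (σ a : ℕ) (σ b)) (max (σ a : ℕ) (σ b))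
    have h2 := idx_lt (n := n) (f := ef E) (row := lev E) (lv := lev (ef E)) hs hsK hB
      (decide (eF E (min (σ a : ℕ) (σ b)) (max (σ a : ℕ) (σ b))))
      (u := min (σ a : ℕ) (σ b)) (max (σ a : ℕ) (σ b))
      (lt_of_le_of_lt (min_le_left _ _) (σ a).2)
    rw [← hE]
    calc _ < tag (ef E) (lev E) (lev (ef E)) P s
          (decide (eF E (min (σ a : ℕ) (σ b)) (max (σ a : ℕ) (σ b))))
          (min (σ a : ℕ) (σ b)) (max (σ a : ℕ) (σ b)) * K + K := by omega
      _ = (tag (ef E) (lev E) (lev (ef E)) P s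
          (decide (eF E (min (σ a : ℕ) (σ b)) (max (σ a : ℕ) (σ b))))
          (min (σ a : ℕ) (σ b)) (max (σ a : ℕ) (σ b)) + 1) * K := by ring
      _ ≤ M * K := Nat.mul_le_mul_right K h1
  refine ⟨τ, fun a b => ⟨page G σ P s K a b, hpage a b⟩, ?_⟩
  intro a b x y hab hxy _ _ hd
  have hd' : page G σ P s K a b = page G σ P s K x y := congrArg Fin.val hd
  -- natural edges
  have hed : ∀ a b : Fin n, G.Adj a b →
      Lay.Ed (eF E) (ef E) (decide (eF E (min (σ a : ℕ) (σ b)) (max (σ a : ℕ) (σ b))))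
        (min (σ a : ℕ) (σ b)) (max (σ a : ℕ) (σ b)) := by
    intro a b hab
    have hE' : E (min (σ a : ℕ) (σ b)) (max (σ a : ℕ) (σ b)) := by
      have hne : (σ a : ℕ) ≠ σ b := fun h1 => hab.ne (σ.injective (Fin.ext h1))
      rcases lt_or_gt_of_ne hne with h1 | h1
      · rw [min_eq_left h1.le, max_eq_right h1.le]
        exact ⟨a, b, hab, rfl, rfl, h1⟩
      · rw [min_eq_right h1.le, max_eq_left h1.le]
        exact ⟨b, a, hab.symm, rfl, rfl, h1⟩
    by_cases hF : eF E (min (σ a : ℕ) (σ b)) (max (σ a : ℕ) (σ b))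
    · exact Or.inl ⟨decide_eq_true hF, hF⟩
    · refine Or.inr ⟨decide_eq_false hF, hE', ?_⟩
      by_contra hcon
      exact hF ⟨hE', hcon⟩
  have hlt : ∀ a b, idx (ef E) (lev E) (lev (ef E)) P s K
      (decide (eF E (min (σ a : ℕ) (σ b)) (max (σ a : ℕ) (σ b))))
      (min (σ a : ℕ) (σ b)) (max (σ a : ℕ) (σ b)) < K := fun a b =>
    idx_lt (n := n) (f := ef E) (row := lev E) (lv := lev (ef E)) hs hsK hB _ _
      (lt_of_le_of_lt (min_le_left _ _) (σ a).2)
  have h1 := hlt a b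
  have h2 := hlt x y
  have hK0 : 0 < K := by omega
  unfold page at hd'
  rw [← hE] at hd'
  have htag := congrArg (· / K) hd'
  have hidx := congrArg (· % K) hd'
  rw [Nat.mul_comm _ K, Nat.mul_comm _ K, Nat.mul_add_div hK0, Nat.mul_add_div hK0,
    Nat.div_eq_of_lt h1, Nat.div_eq_of_lt h2, add_zero, add_zero] at htag
  rw [Nat.mul_comm _ K, Nat.mul_comm _ K, Nat.mul_add_mod, Nat.mul_add_mod,
    Nat.mod_eq_of_lt h1, Nat.mod_eq_of_lt h2] at hidx
  have key := L.noncross hK (hed a b hab) (hed x y hxy) htag hidx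
  rintro ⟨g1, g2, g3⟩
  have g1' : (τ a : ℕ) < τ x := g1
  have g2' : (τ x : ℕ) < τ b := g2
  have g3' : (τ b : ℕ) < τ y := g3
  rw [hτ, hτ] at g1' g2' g3'
  obtain ⟨⟨k1, k2, k3, k4⟩, _⟩ := key
  rcases le_total (σ a : ℕ) (σ b) with e1 | e1 <;> rcases le_total (σ x : ℕ) (σ y) with e2 | e2
  · rw [min_eq_left e1, max_eq_right e1, min_eq_left e2, max_eq_right e2] at k1
    exact k1 ⟨g1', g2', g3'⟩
  · rw [min_eq_left e1, max_eq_right e1, min_eq_right e2, max_eq_left e2] at k2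
    exact k2 ⟨g1', g2', g3'⟩
  · rw [min_eq_right e1, max_eq_left e1, min_eq_left e2, max_eq_right e2] at k3
    exact k3 ⟨g1', g2', g3'⟩
  · rw [min_eq_right e1, max_eq_left e1, min_eq_right e2, max_eq_left e2] at k4
    exact k4 ⟨g1', g2', g3'⟩

end H94SQ
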