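import Mathlib

/-!
# Blocks of rows and the keys inside a block
-/

set_option autoImplicit false

namespace H94SQ

/-- Index of the block of a row. The rows with `P` form blocks of their own, the maximal runs of
the other rows are blocks. -/
noncomputable def blk (P : ℕ → Prop) : ℕ → ℕ
  | 0 => 0
  | (t + 1) =>
    haveI := Classical.propDecidable (P t ∨ P (t + 1))
    if P t ∨ P (t + 1) then blk P t + 1 else blk P t

/-- First row of the block of a row. -/
noncomputable def base (P : ℕ → Prop) : ℕ → ℕ
  | 0 => 0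
  | (t + 1) =>
    haveI := Classical.propDecidable (P t ∨ P (t + 1))
    if P t ∨ P (t + 1) then t + 1 else base P t

section blocks
variable {P : ℕ → Prop}

theorem blk_succ_of {t : ℕ} (h : P t ∨ P (t + 1)) : blk P (t + 1) = blk P t + 1 := by
  rw [blk, if_pos h]

theorem blk_succ_not {t : ℕ} (h : ¬ (P t ∨ P (t + 1))) : blk P (t + 1) = blk P t := by
  rw [blk, if_neg h]

theorem base_succ_of {t : ℕ} (h : P t ∨ P (t + 1)) : base P (t + 1) = t + 1 := by
  rw [base, if_pos h]

theorem base_succ_not {t : ℕ} (h : ¬ (P t ∨ P (t + 1))) : base P (t + 1) = base P t := by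
  rw [base, if_neg h]

theorem base_le (t : ℕ) : base P t ≤ t := by
  induction t with
  | zero => rw [base]
  | succ t ih =>
    by_cases h : P t ∨ P (t + 1)
    · rw [base_succ_of h]
    · rw [base_succ_not h]; omega

theorem blk_mono : Monotone (blk P) := by
  refine monotone_nat_of_le_succ fun t => ?_
  by_cases h : P t ∨ P (t + 1)
  · rw [blk_succ_of h]; omega
  · rw [blk_succ_not h]

theorem base_eq_of_blk_eq {t t' : ℕ} (h : t ≤ t') (hb : blk P t = blk P t') :
    base P t = base P t' := by
  induction t', h using Nat.le_induction with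
  | base => rfl
  | succ t' htt' ih =>
    have h1 : blk P t ≤ blk P t' := blk_mono htt'
    by_cases h : P t' ∨ P (t' + 1)
    · rw [blk_succ_of h] at hb; omega
    · rw [blk_succ_not h] at hb
      rw [base_succ_not h]
      exact ih hb

theorem base_eq_of_blk_eq' {t t' : ℕ} (hb : blk P t = blk P t') :
    base P t = base P t' := by
  rcases le_total t t' with h | h
  · exact base_eq_of_blk_eq h hb
  · exact (base_eq_of_blk_eq h hb.symm).symm

/-- a row with `P` is alone in its block -/
theorem eq_of_blk_eq {t t' : ℕ} (hP : P t) (hb : blk P t = blk P t') : t = t' := by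
  rcases lt_trichotomy t t' with h | h | h
  · have h1 : blk P (t + 1) ≤ blk P t' := blk_mono h
    rw [blk_succ_of (Or.inl hP)] at h1
    omega
  · exact h
  · obtain ⟨r, rfl⟩ : ∃ r, t = r + 1 := ⟨t - 1, by omega⟩
    have h1 : blk P t' ≤ blk P r := blk_mono (by omega)
    rw [blk_succ_of (Or.inr hP)] at hb
    omega

theorem P_of_blk_eq {t t' : ℕ} (hP : ¬ P t) (hb : blk P t = blk P t') : ¬ P t' := by
  intro h
  exact hP (eq_of_blk_eq h hb.symm ▸ h)

end blocks

/-! ### The parent of a vertex in the previous row -/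

/-- The least vertex of the previous row which has an `F`-neighbour in the row of `v` at `v` or
later; if there is none, the last vertex of the previous row. -/
noncomputable def par (F : ℕ → ℕ → Prop) (row : ℕ → ℕ) (v : ℕ) : ℕ :=
  haveI := Classical.propDecidable
    (∃ x y, v ≤ y ∧ row y = row v ∧ row x + 1 = row v ∧ F x y)
  if ∃ x y, v ≤ y ∧ row y = row v ∧ row x + 1 = row v ∧ F x y
  then sInf {x | ∃ y, v ≤ y ∧ row y = row v ∧ row x + 1 = row v ∧ F x y}
  else sInf {x | row x = row v} - 1

section par
variable {F : ℕ → ℕ → Prop} {row : ℕ → ℕ}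

theorem par_cases (hm : Monotone row) (hs : ∀ v, row (v + 1) ≤ row v + 1) (h0 : row 0 = 0)
    {v : ℕ} (hv : row v ≠ 0) :
    row (par F row v) + 1 = row v ∧
    (((∃ y, v ≤ y ∧ row y = row v ∧ F (par F row v) y) ∧
      ∀ x y, v ≤ y → row y = row v → row x + 1 = row v → F x y → par F row v ≤ x) ∨
     ((∀ x y, v ≤ y → row y = row v → row x + 1 = row v → ¬ F x y) ∧
      ∀ x, row x < row v → x ≤ par F row v)) := by
  classical
  by_cases h : ∃ x y, v ≤ y ∧ row y = row v ∧ row x + 1 = row v ∧ F x y
  · have hp : par F row v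
        = sInf {x | ∃ y, v ≤ y ∧ row y = row v ∧ row x + 1 = row v ∧ F x y} := by
      unfold par
      rw [if_pos h]
    have hmem := Nat.sInf_mem (s := {x | ∃ y, v ≤ y ∧ row y = row v ∧ row x + 1 = row v ∧ F x y})
      h
    rw [← hp] at hmem
    obtain ⟨y, h1, h2, h3, h4⟩ := hmem
    refine ⟨h3, Or.inl ⟨⟨y, h1, h2, h4⟩, ?_⟩⟩
    intro x y hy1 hy2 hx hF
    rw [hp]
    exact Nat.sInf_le ⟨y, hy1, hy2, hx, hF⟩
  · have hp : par F row v = sInf {x | row x = row v} - 1 := by
      unfold par
      rw [if_neg h]
    have hmem : row (sInf {x | row x = row v}) = row v :=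
      Nat.sInf_mem (s := {x | row x = row v}) ⟨v, rfl⟩
    have hpos : sInf {x | row x = row v} ≠ 0 := by
      intro h1
      rw [h1, h0] at hmem
      omega
    have hlt : row (par F row v) < row v := by
      have h1 : row (par F row v) ≤ row v := by
        rw [← hmem]
        exact hm (by omega)
      rcases h1.lt_or_eq with h2 | h2
      · exact h2
      · have h3 : sInf {x | row x = row v} ≤ par F row v := Nat.sInf_le h2
        omega
    have hsucc : row (par F row v + 1) = row v := by
      rw [hp, Nat.sub_add_cancel (by omega)]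
      exact hmem
    refine ⟨?_, Or.inr ⟨?_, ?_⟩⟩
    · have h1 := hs (par F row v)
      omega
    · intro x y h1 h2 h3 h4
      exact h ⟨x, y, h1, h2, h3, h4⟩
    · intro x hx
      by_contra hcon
      have h1 : row (par F row v + 1) ≤ row x := hm (by omega)
      omega

theorem par_row (hm : Monotone row) (hs : ∀ v, row (v + 1) ≤ row v + 1) (h0 : row 0 = 0)
    {v : ℕ} (hv : row v ≠ 0) : row (par F row v) + 1 = row v :=
  (par_cases (F := F) hm hs h0 hv).1

theorem par_lt (hm : Monotone row) (hs : ∀ v, row (v + 1) ≤ row v + 1) (h0 : row 0 = 0)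
    {v : ℕ} (hv : row v ≠ 0) : par F row v < v := by
  have h1 := par_row (F := F) hm hs h0 hv
  by_contra hcon
  have := hm (show v ≤ par F row v by omega)
  omega

/-- the parent of `y` is at most each `F`-neighbour of `y` in the previous row -/
theorem par_le (hm : Monotone row) (hs : ∀ v, row (v + 1) ≤ row v + 1) (h0 : row 0 = 0)
    {x y : ℕ} (hxy : row x + 1 = row y) (hF : F x y) : par F row y ≤ x := by
  rcases (par_cases (F := F) (v := y) hm hs h0 (by omega)).2 with h | h
  · exact h.2 x y le_rfl rfl hxy hF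
  · exact absurd hF (h.1 x y le_rfl rfl hxy)

/-- the parent of a vertex after an `F`-neighbour of `x` is at least `x` -/
theorem le_par (hm : Monotone row) (hs : ∀ v, row (v + 1) ≤ row v + 1) (h0 : row 0 = 0)
    (nF : ∀ u v x y, F u v → F x y → ¬ (u < x ∧ y < v))
    {x y y' : ℕ} (hxy : row x + 1 = row y) (hF : F x y) (hyy : y < y') (hr : row y' = row y) :
    x ≤ par F row y' := by
  rcases (par_cases (F := F) (v := y') hm hs h0 (by omega)).2 with h | h
  · obtain ⟨⟨z, hz1, _, hz3⟩, _⟩ := h
    by_contra hcon
    exact nF _ _ _ _ hz3 hF ⟨by omega, by omega⟩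
  · exact h.2 x (by omega)

theorem par_mono (hm : Monotone row) (hs : ∀ v, row (v + 1) ≤ row v + 1) (h0 : row 0 = 0)
    {y y' : ℕ} (hyy : y ≤ y') (hr : row y = row y') (hy : row y ≠ 0) :
    par F row y ≤ par F row y' := by
  rcases (par_cases (F := F) (v := y') hm hs h0 (by omega)).2 with h | h
  · obtain ⟨⟨z, hz1, hz2, hz3⟩, _⟩ := h
    have hrow := par_row (F := F) (v := y') hm hs h0 (by omega)
    rcases (par_cases (F := F) (v := y) hm hs h0 hy).2 with h' | h'
    · exact h'.2 _ z (by omega) (by omega) (by omega) hz3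
    · exact absurd hz3 (h'.1 _ z (by omega) (by omega) (by omega))
  · have hrow := par_row (F := F) (v := y) hm hs h0 hy
    exact h.2 _ (by omega)

end par

end H94SQ
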