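import Pool.Agent.H94.SQ.Kap

/-!
# The key of a vertex inside its block
-/

set_option autoImplicit false

namespace H94SQ

/-- The key: in a row with `P` the chunks of `s` consecutive vertices are reversed, in the other
blocks the key of a vertex is obtained by inserting it after its parent. -/
noncomputable def kap (F : ℕ → ℕ → Prop) (row : ℕ → ℕ) (P : ℕ → Prop) (n s : ℕ) (v : ℕ) : ℕ :=
  haveI := Classical.propDecidable (P (row v))
  if P (row v) then v / s * s + (s - 1 - v % s)
  else (if _h : base P (row v) ≠ row v ∧ par F row v < v then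
      kap F row P n s (par F row v) else 0) + (v + 1) * (n + 1) ^ (n - row v)
termination_by v
decreasing_by exact _h.2

section
variable {F : ℕ → ℕ → Prop} {row : ℕ → ℕ} {P : ℕ → Prop} {n s : ℕ}

theorem kap_P {v : ℕ} (h : P (row v)) : kap F row P n s v = v / s * s + (s - 1 - v % s) := by
  rw [kap, if_pos h]

theorem kap_base {v : ℕ} (h : ¬ P (row v)) (hb : base P (row v) = row v) :
    kap F row P n s v = (v + 1) * (n + 1) ^ (n - row v) := by
  rw [kap, if_neg h, dif_neg (fun hh => hh.1 hb), zero_add]

theorem row_ne_zero_of_base {t : ℕ} (hb : base P t ≠ t) : t ≠ 0 := by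
  rintro rfl
  exact hb (by rw [base])

theorem kap_par (hm : Monotone row) (hs : ∀ v, row (v + 1) ≤ row v + 1) (h0 : row 0 = 0)
    {v : ℕ} (h : ¬ P (row v)) (hb : base P (row v) ≠ row v) :
    kap F row P n s v
      = kap F row P n s (par F row v) + (v + 1) * (n + 1) ^ (n - row v) := by
  have hlt := par_lt (F := F) hm hs h0 (row_ne_zero_of_base hb)
  rw [kap, if_neg h, dif_pos ⟨hb, hlt⟩]

theorem not_P_of_base {t : ℕ} (hb : base P (t + 1) ≠ t + 1) : ¬ P t ∧ ¬ P (t + 1) := by
  have h : ¬ (P t ∨ P (t + 1)) := fun h => hb (base_succ_of h)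
  exact ⟨fun h1 => h (Or.inl h1), fun h1 => h (Or.inr h1)⟩

/-- keys increase along a row -/
theorem kap_row (hm : Monotone row) (hs : ∀ v, row (v + 1) ≤ row v + 1) (h0 : row 0 = 0)
    (t : ℕ) : ∀ x y, x < y → row x = t → row y = t → ¬ P t →
      kap F row P n s x + (n + 1) ^ (n - t) ≤ kap F row P n s y := by
  induction t with
  | zero =>
    intro x y hxy hx hy hP
    have hb : base P 0 = 0 := by rw [base]
    rw [kap_base (by rwa [hx]) (by rwa [hx]), kap_base (by rwa [hy]) (by rwa [hy]), hx, hy]
    nlinarith [Nat.pow_pos (n := n - 0) (show 0 < n + 1 by omega)]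
  | succ t ih =>
    intro x y hxy hx hy hP
    have hB : 0 < (n + 1) ^ (n - (t + 1)) := Nat.pow_pos (by omega)
    by_cases hb : base P (t + 1) = t + 1
    · rw [kap_base (by rwa [hx]) (by rwa [hx]), kap_base (by rwa [hy]) (by rwa [hy]), hx, hy]
      nlinarith
    · have hnP := not_P_of_base hb
      rw [kap_par hm hs h0 (v := x) (by rwa [hx]) (by rwa [hx]),
        kap_par hm hs h0 (v := y) (by rwa [hy]) (by rwa [hy]), hx, hy]
      have h1 := par_row (F := F) (v := x) hm hs h0 (by omega)
      have h2 := par_row (F := F) (v := y) hm hs h0 (by omega)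
      have h3 := par_mono (F := F) (y := x) (y' := y) hm hs h0 hxy.le (by omega) (by omega)
      have h4 : kap F row P n s (par F row x) ≤ kap F row P n s (par F row y) := by
        rcases h3.lt_or_eq with h5 | h5
        · have := ih _ _ h5 (by omega) (by omega) hnP.1
          omega
        · rw [h5]
      nlinarith

theorem kap_row_lt (hm : Monotone row) (hs : ∀ v, row (v + 1) ≤ row v + 1) (h0 : row 0 = 0)
    {x y : ℕ} (hxy : x < y) (hr : row x = row y) (hP : ¬ P (row y)) :
    kap F row P n s x < kap F row P n s y := by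
  have h1 := kap_row (F := F) (P := P) (n := n) (s := s) hm hs h0 (row y) x y hxy hr rfl hP
  have h2 : 0 < (n + 1) ^ (n - row y) := Nat.pow_pos (by omega)
  omega

theorem kap_lt_of_le_par (hm : Monotone row) (hs : ∀ v, row (v + 1) ≤ row v + 1)
    (h0 : row 0 = 0) {x y : ℕ} (hr : row x + 1 = row y) (hb : base P (row y) ≠ row y)
    (hx : x ≤ par F row y) : kap F row P n s x < kap F row P n s y := by
  have hb' : base P (row x + 1) ≠ row x + 1 := by rwa [hr]
  have hnP := not_P_of_base hb'
  rw [hr] at hnP
  have h2 := par_row (F := F) (v := y) hm hs h0 (by omega)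
  rw [kap_par hm hs h0 (v := y) hnP.2 hb]
  have hB : 0 < (y + 1) * (n + 1) ^ (n - row y) :=
    Nat.mul_pos (by omega) (Nat.pow_pos (by omega))
  rcases hx.lt_or_eq with h5 | h5
  · have := kap_row_lt (F := F) (P := P) (n := n) (s := s) hm hs h0 h5 (by omega)
      (by rw [show row (par F row y) = row x by omega]; exact hnP.1)
    omega
  · rw [← h5]
    omega

theorem kap_lt_of_par_lt (hm : Monotone row) (hs : ∀ v, row (v + 1) ≤ row v + 1)
    (h0 : row 0 = 0) {x y : ℕ} (hr : row x + 1 = row y) (hb : base P (row y) ≠ row y)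
    (hx : par F row y < x) (hyn : y < n) (hrn : row y ≤ n) :
    kap F row P n s y < kap F row P n s x := by
  have hb' : base P (row x + 1) ≠ row x + 1 := by rwa [hr]
  have hnP := not_P_of_base hb'
  rw [hr] at hnP
  have h2 := par_row (F := F) (v := y) hm hs h0 (by omega)
  rw [kap_par hm hs h0 (v := y) hnP.2 hb]
  have h3 := kap_row (F := F) (P := P) (n := n) (s := s) hm hs h0 (row x) _ x hx
    (by omega) rfl hnP.1
  have h4 : (n + 1) ^ (n - row x) = (n + 1) * (n + 1) ^ (n - row y) := by
    rw [show n - row x = (n - row y) + 1 by omega, pow_succ]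
    ring
  have h5 : (y + 1) * (n + 1) ^ (n - row y) < (n + 1) * (n + 1) ^ (n - row y) :=
    Nat.mul_lt_mul_of_pos_right (by omega) (Nat.pow_pos (by omega))
  omega

/-- two vertices of a row with `P` in the same chunk are reversed -/
theorem kap_chunk (hs0 : 0 < s) {x y : ℕ} (hxy : x < y) (hPx : P (row x)) (hPy : P (row y))
    (hq : x / s = y / s) : kap F row P n s y < kap F row P n s x := by
  rw [kap_P hPx, kap_P hPy, hq]
  have h1 := Nat.div_add_mod x s
  have h2 := Nat.div_add_mod y s
  have h3 := Nat.mod_lt x hs0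
  have h4 := Nat.mod_lt y hs0
  rw [hq] at h1
  omega

theorem kap_chunks (hs0 : 0 < s) {x y : ℕ} (hPx : P (row x)) (hPy : P (row y))
    (hq : x / s < y / s) : kap F row P n s x < kap F row P n s y := by
  rw [kap_P hPx, kap_P hPy]
  have h3 := Nat.mod_lt x hs0
  have h4 : (x / s + 1) * s ≤ y / s * s := Nat.mul_le_mul_right s hq
  rw [add_mul, one_mul] at h4
  omega

end

end H94SQ
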