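import Pool.Agent.H94.SQ.Key

/-!
# The layout: edges inside a bundle of rows
-/

set_option autoImplicit false

namespace H94SQ

/-- The pairs of positions `a, b` and `c, d` do not cross. -/
def NC (a b c d : ℕ) : Prop :=
  (¬ (a < c ∧ c < b ∧ b < d) ∧ ¬ (a < d ∧ d < b ∧ b < c) ∧
    ¬ (b < c ∧ c < a ∧ a < d) ∧ ¬ (b < d ∧ d < a ∧ a < c)) ∧
  (¬ (c < a ∧ a < d ∧ d < b) ∧ ¬ (c < b ∧ b < d ∧ d < a) ∧
    ¬ (d < a ∧ a < c ∧ c < b) ∧ ¬ (d < b ∧ b < c ∧ c < a))

theorem NC.symm {a b c d : ℕ} (h : NC a b c d) : NC c d a b := ⟨h.2, h.1⟩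

theorem nc_self (a b c : ℕ) : NC a b c b := by
  refine ⟨⟨?_, ?_, ?_, ?_⟩, ?_, ?_, ?_, ?_⟩ <;> omega

theorem nc_self' (a b c : ℕ) : NC a b a c := by
  refine ⟨⟨?_, ?_, ?_, ?_⟩, ?_, ?_, ?_, ?_⟩ <;> omega

theorem nc_sep {a b c d : ℕ} (h1 : a < c) (h2 : a < d) (h3 : b < c) (h4 : b < d) :
    NC a b c d := by
  refine ⟨⟨?_, ?_, ?_, ?_⟩, ?_, ?_, ?_, ?_⟩ <;> omega

theorem nc_bip {a b c d : ℕ} (_h1 : a < b) (h2 : a < d) (h3 : c < b) (_h4 : c < d)
    (h5 : ¬ (a < c ∧ b < d)) (h6 : ¬ (c < a ∧ d < b)) : NC a b c d := by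
  refine ⟨⟨?_, ?_, ?_, ?_⟩, ?_, ?_, ?_, ?_⟩ <;> omega

theorem nc_bip' {a b c d : ℕ} (_h1 : b < a) (h2 : d < a) (h3 : b < c) (_h4 : d < c)
    (h5 : ¬ (a < c ∧ b < d)) (h6 : ¬ (c < a ∧ d < b)) : NC a b c d := by
  refine ⟨⟨?_, ?_, ?_, ?_⟩, ?_, ?_, ?_, ?_⟩ <;> omega

/-- All data of the layout. -/
structure Lay (n s K : ℕ) (F f : ℕ → ℕ → Prop) (row lv pos : ℕ → ℕ) (P : ℕ → Prop) :
    Prop where
  s0 : 0 < s
  ltF : ∀ u v, F u v → u < v ∧ v < n
  ltf : ∀ u v, f u v → u < v ∧ v < n
  nF : ∀ u v x y, F u v → F x y → ¬ (u < x ∧ y < v)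
  nf : ∀ u v x y, f u v → f x y → ¬ (u < x ∧ y < v)
  rowm : Monotone row
  rows : ∀ v, row (v + 1) ≤ row v + 1
  row0 : row 0 = 0
  rown : ∀ v, v < n → row v ≤ n
  rowF : ∀ u v, F u v → row v ≤ row u + 1
  rowf : ∀ u v, f u v → row v ≤ row u + 1
  topF : ∀ u v, F u v → row u = row v → ∀ z, row z = row v → z ≤ v
  lvm : Monotone lv
  lvf : ∀ u v, f u v → lv v ≤ lv u + 1
  topf : ∀ u v, f u v → lv u = lv v → ∀ z, lv z = lv v → z ≤ v
  PP : ∀ t, P t → ¬ P (t + 1)
  pblk : ∀ u v, u < n → v < n → blk P (row u) < blk P (row v) → pos u < pos v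
  pcol : ∀ u v, u < n → v < n → blk P (row u) = blk P (row v) →
    lv u % 2 = 0 → lv v % 2 = 1 → pos u < pos v
  pA : ∀ u v, u < n → v < n → blk P (row u) = blk P (row v) →
    lv u % 2 = 0 → lv v % 2 = 0 → kap F row P n s u < kap F row P n s v → pos u < pos v
  pB : ∀ u v, u < n → v < n → blk P (row u) = blk P (row v) →
    lv u % 2 = 1 → lv v % 2 = 1 → kap F row P n s v < kap F row P n s u → pos u < pos v

namespace Lay

variable {n s K : ℕ} {F f : ℕ → ℕ → Prop} {row lv pos : ℕ → ℕ} {P : ℕ → Prop}

/-- order of the positions inside a row without `P` -/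
theorem rowA (L : Lay n s K F f row lv pos P) {x y : ℕ} (hxy : x < y) (hy : y < n)
    (hr : row x = row y) (hP : ¬ P (row y)) (hx2 : lv x % 2 = 0) (hy2 : lv y % 2 = 0) :
    pos x < pos y :=
  L.pA x y (by omega) hy (by rw [hr]) hx2 hy2
    (kap_row_lt L.rowm L.rows L.row0 hxy hr hP)

theorem rowB (L : Lay n s K F f row lv pos P) {x y : ℕ} (hxy : x < y) (hy : y < n)
    (hr : row x = row y) (hP : ¬ P (row y)) (hx2 : lv x % 2 = 1) (hy2 : lv y % 2 = 1) :
    pos y < pos x :=
  L.pB y x hy (by omega) (by rw [hr]) hy2 hx2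
    (kap_row_lt L.rowm L.rows L.row0 hxy hr hP)

/-- Two edges of a monotone relation between two rows (or inside a row) of a bundle, both
bichromatic in the same way. -/
theorem bip (L : Lay n s K F f row lv pos P) {u v u' v' : ℕ}
    (hu : u < n) (hv : v < n) (hu' : u' < n) (hv' : v' < n)
    (h1 : ¬ (u < u' ∧ v' < v)) (h2 : ¬ (u' < u ∧ v < v'))
    (hru : row u = row u') (hrv : row v = row v') (hPu : ¬ P (row u)) (hPv : ¬ P (row v))
    (hb : blk P (row u) = blk P (row v))
    (hcu : lv u % 2 = lv u' % 2) (hcv : lv v % 2 = lv v' % 2) (hne : lv u % 2 ≠ lv v % 2) :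
    NC (pos u) (pos v) (pos u') (pos v') := by
  have hPu' : ¬ P (row u') := hru ▸ hPu
  have hPv' : ¬ P (row v') := hrv ▸ hPv
  rcases Nat.mod_two_eq_zero_or_one (lv u) with c | c
  · have d : lv v % 2 = 1 := by omega
    refine nc_bip (L.pcol u v hu hv hb c d) (L.pcol u v' hu hv' (by rw [hb, hrv]) c (by omega))
      (L.pcol u' v hu' hv (by rw [← hru, hb]) (by omega) d)
      (L.pcol u' v' hu' hv' (by rw [← hru, hb, hrv]) (by omega) (by omega)) ?_ ?_
    · rintro ⟨h3, h4⟩
      have h5 : u < u' := by
        rcases lt_trichotomy u u' with h | h | h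
        · exact h
        · rw [h] at h3; omega
        · have := L.rowA h hu hru.symm hPu (by omega) c
          omega
      have h6 : v' < v := by
        rcases lt_trichotomy v v' with h | h | h
        · have := L.rowB h hv' hrv hPv' d (by omega)
          omega
        · rw [h] at h4; omega
        · exact h
      exact h1 ⟨h5, h6⟩
    · rintro ⟨h3, h4⟩
      have h5 : u' < u := by
        rcases lt_trichotomy u u' with h | h | h
        · have := L.rowA h hu' hru hPu' c (by omega)
          omega
        · rw [h] at h3; omega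
        · exact h
      have h6 : v < v' := by
        rcases lt_trichotomy v v' with h | h | h
        · exact h
        · rw [h] at h4; omega
        · have := L.rowB h hv hrv.symm hPv (by omega) d
          omega
      exact h2 ⟨h5, h6⟩
  · have d : lv v % 2 = 0 := by omega
    refine nc_bip' (L.pcol v u hv hu hb.symm d c)
      (L.pcol v' u hv' hu (by rw [← hrv, hb]) (by omega) c)
      (L.pcol v u' hv hu' (by rw [← hru, hb]) d (by omega))
      (L.pcol v' u' hv' hu' (by rw [← hru, hb, hrv]) (by omega) (by omega)) ?_ ?_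
    · rintro ⟨h3, h4⟩
      have h5 : u' < u := by
        rcases lt_trichotomy u u' with h | h | h
        · have := L.rowB h hu' hru hPu' c (by omega)
          omega
        · rw [h] at h3; omega
        · exact h
      have h6 : v < v' := by
        rcases lt_trichotomy v v' with h | h | h
        · exact h
        · rw [h] at h4; omega
        · have := L.rowA h hv hrv.symm hPv (by omega) d
          omega
      exact h2 ⟨h5, h6⟩
    · rintro ⟨h3, h4⟩
      have h5 : u < u' := by
        rcases lt_trichotomy u u' with h | h | h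
        · exact h
        · rw [h] at h3; omega
        · have := L.rowB h hu hru.symm hPu (by omega) c
          omega
      have h6 : v' < v := by
        rcases lt_trichotomy v v' with h | h | h
        · have := L.rowA h hv' hrv hPv' d (by omega)
          omega
        · rw [h] at h4; omega
        · exact h
      exact h1 ⟨h5, h6⟩

/-- Monochromatic `F`-edges between two consecutive rows of a bundle. -/
theorem tree (L : Lay n s K F f row lv pos P) {u v u' v' : ℕ}
    (hF : F u v) (hF' : F u' v') (hru : row u = row u') (hrv : row v = row v')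
    (hr : row u + 1 = row v) (hb : blk P (row u) = blk P (row v))
    (hc : lv u % 2 = lv v % 2) (hc' : lv u' % 2 = lv v' % 2) :
    NC (pos u) (pos v) (pos u') (pos v') := by
  obtain ⟨huv, hv⟩ := L.ltF u v hF
  obtain ⟨huv', hv'⟩ := L.ltF u' v' hF'
  have hu : u < n := by omega
  have hu' : u' < n := by omega
  -- the block and its first row
  have hbase : base P (row v) ≠ row v := by
    have h1 := base_eq_of_blk_eq' hb
    have h2 := base_le (P := P) (row u)
    omega
  have hnP : ¬ P (row u) ∧ ¬ P (row v) := by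
    have := not_P_of_base (P := P) (t := row u) (by rw [hr]; exact hbase)
    rw [hr] at this
    exact this
  -- general comparison of two edges
  have main : ∀ u v u' v', F u v → F u' v' → row u = row u' → row v = row v' →
      row u + 1 = row v → base P (row v) ≠ row v → u < u' → v < v' →
      kap F row P n s v < kap F row P n s u' ∧ kap F row P n s u < kap F row P n s v' := by
    intro u v u' v' hF hF' hru hrv hr hbase h1 h2
    obtain ⟨_, hvn⟩ := L.ltF u v hF
    constructor
    · refine kap_lt_of_par_lt L.rowm L.rows L.row0 (by omega) hbase ?_ hvn (L.rown v hvn)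
      exact lt_of_le_of_lt (par_le L.rowm L.rows L.row0 hr hF) h1
    · refine kap_lt_of_le_par L.rowm L.rows L.row0 (by omega) (by rw [← hrv]; exact hbase) ?_
      exact le_par L.rowm L.rows L.row0 L.nF hr hF h2 hrv.symm
  have n1 := L.nF u v u' v' hF hF'
  have n2 := L.nF u' v' u v hF' hF
  by_cases e1 : u = u'
  · subst e1; exact nc_self' _ _ _
  by_cases e2 : v = v'
  · subst e2; exact nc_self _ _ _
  have hPu' : ¬ P (row u') := hru ▸ hnP.1
  have hPv' : ¬ P (row v') := hrv ▸ hnP.2
  -- different colours
  rcases Nat.mod_two_eq_zero_or_one (lv u) with c | c <;>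
    rcases Nat.mod_two_eq_zero_or_one (lv u') with c' | c'
  · -- both in A
    rcases lt_or_gt_of_ne e1 with h | h
    · have hvv : v < v' := by omega
      obtain ⟨k1, k2⟩ := main u v u' v' hF hF' hru hrv hr hbase h hvv
      exact nc_sep (L.rowA h hu' hru hPu' c c')
        (L.pA u v' hu hv' (by rw [hb, hrv]) c (by omega) k2)
        (L.pA v u' hv hu' (by rw [← hru, hb]) (by omega) c' k1)
        (L.rowA hvv hv' hrv hPv' (by omega) (by omega))
    · have hvv : v' < v := by omega
      obtain ⟨k1, k2⟩ := main u' v' u v hF' hF hru.symm hrv.symm (by omega)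
        (by rw [← hrv]; exact hbase) h hvv
      exact (nc_sep (L.rowA h hu hru.symm hnP.1 c' c)
        (L.pA u' v hu' hv (by rw [← hru, hb]) c' (by omega) k2)
        (L.pA v' u hv' hu (by rw [← hrv, hb]) (by omega) c k1)
        (L.rowA hvv hv hrv.symm hnP.2 (by omega) (by omega))).symm
  · exact nc_sep (L.pcol u u' hu hu' (by rw [hru]) c c')
      (L.pcol u v' hu hv' (by rw [hb, hrv]) c (by omega))
      (L.pcol v u' hv hu' (by rw [← hru, hb]) (by omega) c')
      (L.pcol v v' hv hv' (by rw [hrv]) (by omega) (by omega))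
  · exact (nc_sep (L.pcol u' u hu' hu (by rw [hru]) c' c)
      (L.pcol u' v hu' hv (by rw [← hru, hb]) c' (by omega))
      (L.pcol v' u hv' hu (by rw [← hrv, hb]) (by omega) c)
      (L.pcol v' v hv' hv (by rw [hrv]) (by omega) (by omega))).symm
  · -- both in B
    rcases lt_or_gt_of_ne e1 with h | h
    · have hvv : v < v' := by omega
      obtain ⟨k1, k2⟩ := main u v u' v' hF hF' hru hrv hr hbase h hvv
      exact (nc_sep (L.rowB h hu' hru hPu' c c')
        (L.pB u' v hu' hv (by rw [← hru, hb]) c' (by omega) k1)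
        (L.pB v' u hv' hu (by rw [← hrv, hb]) (by omega) c k2)
        (L.rowB hvv hv' hrv hPv' (by omega) (by omega))).symm
    · have hvv : v' < v := by omega
      obtain ⟨k1, k2⟩ := main u' v' u v hF' hF hru.symm hrv.symm (by omega)
        (by rw [← hrv]; exact hbase) h hvv
      exact nc_sep (L.rowB h hu hru.symm hnP.1 c' c)
        (L.pB u v' hu hv' (by rw [← hrv, hb]) c (by omega) k1)
        (L.pB v u' hv hu' (by rw [← hru, hb]) (by omega) c' k2)
        (L.rowB hvv hv hrv.symm hnP.2 (by omega) (by omega))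

/-- `f`-edges inside a level and inside a row of a bundle -/
theorem star (L : Lay n s K F f row lv pos P) {u v u' v' : ℕ}
    (hf : f u v) (hf' : f u' v') (hl : lv u = lv v) (hl' : lv u' = lv v')
    (hru : row u = row v) (hru' : row u' = row v') (hrr : row u = row u')
    (hP : ¬ P (row u)) : NC (pos u) (pos v) (pos u') (pos v') := by
  obtain ⟨huv, hv⟩ := L.ltf u v hf
  obtain ⟨huv', hv'⟩ := L.ltf u' v' hf'
  have main : ∀ u v u' v', u < v → v < n → u' < v' → v' < n → lv u = lv v → lv u' = lv v' →
      row u = row v → row u' = row v' → row u = row u' → ¬ P (row u) → lv v < lv v' →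
      NC (pos u) (pos v) (pos u') (pos v') := by
    intro u v u' v' huv hv huv' hv' hl hl' hru hru' hrr hP hlt
    have h1 : v < u' := by
      by_contra hcon
      have := L.lvm (show u' ≤ v by omega)
      omega
    have p2 : ¬ P (row v) := hru ▸ hP
    have p3 : ¬ P (row u') := hrr ▸ hP
    have p4 : ¬ P (row v') := hru' ▸ p3
    rcases Nat.mod_two_eq_zero_or_one (lv u) with c | c <;>
      rcases Nat.mod_two_eq_zero_or_one (lv u') with c' | c'
    · exact nc_sep (L.rowA (by omega) (by omega) hrr p3 c c')
        (L.rowA (by omega) hv' (by omega) p4 c (by omega))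
        (L.rowA (by omega) (by omega) (by omega) p3 (by omega) c')
        (L.rowA (by omega) hv' (by omega) p4 (by omega) (by omega))
    · exact nc_sep (L.pcol u u' (by omega) (by omega) (by rw [hrr]) c c')
        (L.pcol u v' (by omega) hv' (by rw [hrr, hru']) c (by omega))
        (L.pcol v u' hv (by omega) (by rw [← hrr, hru]) (by omega) c')
        (L.pcol v v' hv hv' (by rw [← hru, hrr, hru']) (by omega) (by omega))
    · exact (nc_sep (L.pcol u' u (by omega) (by omega) (by rw [hrr]) c' c)
        (L.pcol u' v (by omega) hv (by rw [← hrr, hru]) c' (by omega))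
        (L.pcol v' u hv' (by omega) (by rw [hrr, hru']) (by omega) c)
        (L.pcol v' v hv' hv (by rw [← hru, hrr, hru']) (by omega) (by omega))).symm
    · exact (nc_sep (L.rowB (by omega) (by omega) hrr p3 c c')
        (L.rowB (by omega) (by omega) (by omega) p3 (by omega) c')
        (L.rowB (by omega) hv' (by omega) p4 c (by omega))
        (L.rowB (by omega) hv' (by omega) p4 (by omega) (by omega))).symm
  rcases lt_trichotomy (lv v) (lv v') with h | h | h
  · exact main u v u' v' huv hv huv' hv' hl hl' hru hru' hrr hP h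
  · have h1 := L.topf u v hf hl v' h.symm
    have h2 := L.topf u' v' hf' hl' v h
    have h3 : v = v' := by omega
    subst h3
    exact nc_self _ _ _
  · exact (main u' v' u v huv' hv' huv hv hl' hl hru' hru hrr.symm (hrr ▸ hP) h).symm

/-- `f`-edges inside a level between two consecutive rows: all end at the same vertex -/
theorem star' (L : Lay n s K F f row lv pos P) {u v u' v' : ℕ}
    (hf : f u v) (hf' : f u' v') (hl : lv u = lv v) (hl' : lv u' = lv v')
    (hr : row u < row v) (hru : row u = row u') (hrv : row v = row v') :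
    NC (pos u) (pos v) (pos u') (pos v') := by
  have h3 : v = v' := by
    rcases lt_trichotomy (lv v) (lv v') with h | h | h
    · exfalso
      have h1 : v < u' := by
        by_contra hcon
        have := L.lvm (show u' ≤ v by omega)
        omega
      have := L.rowm h1.le
      omega
    · have h1 := L.topf u v hf hl v' h.symm
      have h2 := L.topf u' v' hf' hl' v h
      omega
    · exfalso
      have h1 : v' < u := by
        by_contra hcon
        have := L.lvm (show u ≤ v' by omega)
        omega
      have := L.rowm h1.le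
      omega
  subst h3
  exact nc_self _ _ _

end Lay

end H94SQ
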