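import Pool.Agent.H94.SQ.Lay

/-!
# The layout: edges at the rows with `P`
-/

set_option autoImplicit false

namespace H94SQ

theorem nc_in {a b c d : ℕ} (h1 : a < c) (h2 : a < d) (h3 : c < b) (h4 : d < b) :
    NC a b c d := by
  refine ⟨⟨?_, ?_, ?_, ?_⟩, ?_, ?_, ?_, ?_⟩ <;> omega

theorem nc_in' {a b c d : ℕ} (h1 : b < c) (h2 : b < d) (h3 : c < a) (h4 : d < a) :
    NC a b c d := by
  refine ⟨⟨?_, ?_, ?_, ?_⟩, ?_, ?_, ?_, ?_⟩ <;> omega

namespace Lay

variable {n s K : ℕ} {F f : ℕ → ℕ → Prop} {row lv pos : ℕ → ℕ} {P : ℕ → Prop}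

/-- the same chunk, colour `A` -/
theorem sameA (L : Lay n s K F f row lv pos P) {x y : ℕ} (hxy : x < y) (hy : y < n)
    (hr : row x = row y) (hP : P (row y)) (hq : x / s = y / s)
    (hx2 : lv x % 2 = 0) (hy2 : lv y % 2 = 0) : pos y < pos x :=
  L.pA y x hy (by omega) (by rw [hr]) hy2 hx2 (kap_chunk L.s0 hxy (hr ▸ hP) hP hq)

/-- the same chunk, colour `B` -/
theorem sameB (L : Lay n s K F f row lv pos P) {x y : ℕ} (hxy : x < y) (hy : y < n)
    (hr : row x = row y) (hP : P (row y)) (hq : x / s = y / s)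
    (hx2 : lv x % 2 = 1) (hy2 : lv y % 2 = 1) : pos x < pos y :=
  L.pB x y (by omega) hy (by rw [hr]) hx2 hy2 (kap_chunk L.s0 hxy (hr ▸ hP) hP hq)

/-- different chunks, colour `A` -/
theorem diffA (L : Lay n s K F f row lv pos P) {x y : ℕ} (hx : x < n) (hy : y < n)
    (hr : row x = row y) (hP : P (row y)) (hq : x / s < y / s)
    (hx2 : lv x % 2 = 0) (hy2 : lv y % 2 = 0) : pos x < pos y :=
  L.pA x y hx hy (by rw [hr]) hx2 hy2 (kap_chunks L.s0 (hr ▸ hP) hP hq)

/-- different chunks, colour `B` -/
theorem diffB (L : Lay n s K F f row lv pos P) {x y : ℕ} (hx : x < n) (hy : y < n)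
    (hr : row x = row y) (hP : P (row y)) (hq : x / s < y / s)
    (hx2 : lv x % 2 = 1) (hy2 : lv y % 2 = 1) : pos y < pos x :=
  L.pB y x hy hx (by rw [hr]) hy2 hx2 (kap_chunks L.s0 (hr ▸ hP) hP hq)

theorem div_lt_of_mod (s x y : ℕ) (h : x < y) (hm : x % s = y % s) : x / s < y / s := by
  rcases Nat.eq_zero_or_pos s with hs | hs
  · subst hs
    simp only [Nat.mod_zero] at hm
    omega
  by_contra hcon
  have h1 : y / s ≤ x / s := by omega
  have h2 := Nat.div_add_mod x s
  have h3 := Nat.div_add_mod y s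
  have h4 : s * (y / s) ≤ s * (x / s) := Nat.mul_le_mul_left s h1
  omega

/-- `f`-edges inside a level and inside a row with `P` -/
theorem pstar (L : Lay n s K F f row lv pos P) {u v u' v' : ℕ}
    (hf : f u v) (hf' : f u' v') (hl : lv u = lv v) (hl' : lv u' = lv v')
    (hru : row u = row v) (hru' : row u' = row v') (hrr : row u = row u')
    (hP : P (row u)) (hq : v / s = v' / s) : NC (pos u) (pos v) (pos u') (pos v') := by
  obtain ⟨huv, hv⟩ := L.ltf u v hf
  obtain ⟨huv', hv'⟩ := L.ltf u' v' hf'
  have main : ∀ u v u' v', u < v → v < n → u' < v' → v' < n → lv u = lv v → lv u' = lv v' →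
      row u = row v → row u' = row v' → row u = row u' → P (row u) → v / s = v' / s →
      lv v < lv v' → NC (pos u) (pos v) (pos u') (pos v') := by
    intro u v u' v' huv hv huv' hv' hl hl' hru hru' hrr hP hq hlt
    have h1 : v < u' := by
      by_contra hcon
      have := L.lvm (show u' ≤ v by omega)
      omega
    have q1 : v / s ≤ u' / s := Nat.div_le_div_right h1.le
    have q2 : u' / s ≤ v' / s := Nat.div_le_div_right huv'.le
    have q3 : u / s ≤ v / s := Nat.div_le_div_right huv.le
    have p2 : P (row v) := hru ▸ hP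
    have p3 : P (row u') := hrr ▸ hP
    have p4 : P (row v') := hru' ▸ p3
    rcases Nat.mod_two_eq_zero_or_one (lv u) with c | c <;>
      rcases Nat.mod_two_eq_zero_or_one (lv u') with c' | c'
    · have a1 : pos v' < pos u' := L.sameA huv' hv' hru' p4 (by omega) c' (by omega)
      have a2 : pos u' < pos v := L.sameA h1 (by omega) (by omega) p3 (by omega) (by omega) c'
      rcases q3.lt_or_eq with q4 | q4
      · have a3 : pos u < pos v' := L.diffA (by omega) hv' (by omega) p4 (by omega) c (by omega)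
        exact nc_in (by omega) a3 a2 (by omega)
      · have a3 : pos v < pos u := L.sameA huv hv hru p2 q4 c (by omega)
        exact (nc_sep (by omega) (by omega) (by omega) (by omega)).symm
    · exact nc_sep (L.pcol u u' (by omega) (by omega) (by rw [hrr]) c c')
        (L.pcol u v' (by omega) hv' (by rw [hrr, hru']) c (by omega))
        (L.pcol v u' hv (by omega) (by rw [← hrr, hru]) (by omega) c')
        (L.pcol v v' hv hv' (by rw [← hru, hrr, hru']) (by omega) (by omega))
    · exact (nc_sep (L.pcol u' u (by omega) (by omega) (by rw [hrr]) c' c)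
        (L.pcol u' v (by omega) hv (by rw [← hrr, hru]) c' (by omega))
        (L.pcol v' u hv' (by omega) (by rw [hrr, hru']) (by omega) c)
        (L.pcol v' v hv' hv (by rw [← hru, hrr, hru']) (by omega) (by omega))).symm
    · have a1 : pos u' < pos v' := L.sameB huv' hv' hru' p4 (by omega) c' (by omega)
      have a2 : pos v < pos u' := L.sameB h1 (by omega) (by omega) p3 (by omega) (by omega) c'
      rcases q3.lt_or_eq with q4 | q4
      · have a3 : pos v' < pos u := L.diffB (by omega) hv' (by omega) p4 (by omega) c (by omega)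
        exact nc_in' a2 (by omega) (by omega) a3
      · have a3 : pos u < pos v := L.sameB huv hv hru p2 q4 c (by omega)
        exact nc_sep (by omega) (by omega) (by omega) (by omega)
  rcases lt_trichotomy (lv v) (lv v') with h | h | h
  · exact main u v u' v' huv hv huv' hv' hl hl' hru hru' hrr hP hq h
  · have h1 := L.topf u v hf hl v' h.symm
    have h2 := L.topf u' v' hf' hl' v h
    have h3 : v = v' := by omega
    subst h3
    exact nc_self _ _ _
  · exact (main u' v' u v huv' hv' huv hv hl' hl hru' hru hrr.symm (hrr ▸ hP) hq.symm h).symm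

/-- bichromatic `f`-edges inside a row with `P` -/
theorem pbip (L : Lay n s K F f row lv pos P) {u v u' v' : ℕ}
    (hf : f u v) (hf' : f u' v')
    (hru : row u = row v) (hru' : row u' = row v') (hrr : row u = row u')
    (hP : P (row u)) (hcu : lv u % 2 = lv u' % 2) (hcv : lv v % 2 = lv v' % 2)
    (hne : lv u % 2 ≠ lv v % 2) (hq : u / s = u' / s ↔ v / s = v' / s) :
    NC (pos u) (pos v) (pos u') (pos v') := by
  obtain ⟨huv, hv⟩ := L.ltf u v hf
  obtain ⟨huv', hv'⟩ := L.ltf u' v' hf'
  have n1 := L.nf u v u' v' hf hf'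
  have n2 := L.nf u' v' u v hf' hf
  by_cases e1 : u = u'
  · subst e1; exact nc_self' _ _ _
  by_cases e2 : v = v'
  · subst e2; exact nc_self _ _ _
  have p2 : P (row v) := hru ▸ hP
  have p3 : P (row u') := hrr ▸ hP
  have p4 : P (row v') := hru' ▸ p3
  have aux : ∀ u v u' v', u < u' → v < v' → u' < n → v' < n → u < v → u' < v' →
      row u = row v → row u' = row v' → row u = row u' → P (row u') →
      lv u % 2 = lv u' % 2 → lv v % 2 = lv v' % 2 → lv u % 2 ≠ lv v % 2 →
      (u / s = u' / s ↔ v / s = v' / s) →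
      ((pos u < pos u' ∧ pos v' < pos v) ∨ (pos u' < pos u ∧ pos v < pos v')) := by
    intro u v u' v' h1 h2 hu' hv' huv huv' hru hru' hrr p3 hcu hcv hne hq
    have q1 : u / s ≤ u' / s := Nat.div_le_div_right h1.le
    have q2 : v / s ≤ v' / s := Nat.div_le_div_right h2.le
    have p4 : P (row v') := hru' ▸ p3
    rcases Nat.mod_two_eq_zero_or_one (lv u) with c | c
    · rcases q1.lt_or_eq with q | q
      · have q' : v / s < v' / s := by omega
        left
        exact ⟨L.diffA (by omega) hu' hrr p3 q c (by omega),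
          L.diffB (by omega) hv' (by omega) p4 q' (by omega) (by omega)⟩
      · have q' : v / s = v' / s := hq.1 q
        right
        exact ⟨L.sameA h1 hu' hrr p3 q c (by omega),
          L.sameB h2 hv' (by omega) p4 q' (by omega) (by omega)⟩
    · rcases q1.lt_or_eq with q | q
      · have q' : v / s < v' / s := by omega
        right
        exact ⟨L.diffB (by omega) hu' hrr p3 q c (by omega),
          L.diffA (by omega) hv' (by omega) p4 q' (by omega) (by omega)⟩
      · have q' : v / s = v' / s := hq.1 q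
        left
        exact ⟨L.sameB h1 hu' hrr p3 q c (by omega),
          L.sameA h2 hv' (by omega) p4 q' (by omega) (by omega)⟩
  have key : ((pos u < pos u' ∧ pos v' < pos v) ∨ (pos u' < pos u ∧ pos v < pos v')) := by
    rcases lt_or_gt_of_ne e1 with h | h
    · exact aux u v u' v' h (by omega) (by omega) hv' huv huv' hru hru' hrr p3 hcu hcv hne hq
    · have := aux u' v' u v h (by omega) (by omega) hv huv' huv hru' hru hrr.symm hP hcu.symm
        hcv.symm (by omega) ⟨fun h => (hq.1 h.symm).symm, fun h => (hq.2 h.symm).symm⟩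
      omega
  rcases Nat.mod_two_eq_zero_or_one (lv u) with c | c
  · exact nc_bip (L.pcol u v (by omega) hv (by rw [hru]) c (by omega))
      (L.pcol u v' (by omega) hv' (by rw [hrr, hru']) c (by omega))
      (L.pcol u' v (by omega) hv (by rw [← hrr, hru]) (by omega) (by omega))
      (L.pcol u' v' (by omega) hv' (by rw [hru']) (by omega) (by omega)) (by omega) (by omega)
  · exact nc_bip' (L.pcol v u hv (by omega) (by rw [hru]) (by omega) c)
      (L.pcol v' u hv' (by omega) (by rw [hrr, hru']) (by omega) c)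
      (L.pcol v u' hv (by omega) (by rw [← hrr, hru]) (by omega) (by omega))
      (L.pcol v' u' hv' (by omega) (by rw [hru']) (by omega) (by omega)) (by omega) (by omega)

/-- edges from a bundle to the next row, which has `P` -/
theorem crossV_aux (L : Lay n s K F f row lv pos P) {u v u' v' : ℕ}
    (hu : u < n) (hv : v < n) (hu' : u' < n) (hv' : v' < n)
    (h1 : ¬ (u < u' ∧ v' < v)) (h2 : ¬ (u' < u ∧ v < v'))
    (hru : row u = row u') (hrv : row v = row v') (hPu : ¬ P (row u)) (hPv : P (row v))
    (hcu : lv u % 2 = lv u' % 2) (hcv : lv v % 2 = lv v' % 2)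
    (k1 : lv u % 2 = lv v % 2 → v / s = v' / s)
    (k2 : lv u % 2 ≠ lv v % 2 → v % s = v' % s) : ¬ (pos u < pos u' ∧ pos v < pos v') := by
  rintro ⟨g1, g2⟩
  have e1 : u ≠ u' := by rintro rfl; omega
  have e2 : v ≠ v' := by rintro rfl; omega
  have hPu' : ¬ P (row u') := hru ▸ hPu
  have hPv' : P (row v') := hrv ▸ hPv
  rcases Nat.mod_two_eq_zero_or_one (lv u) with c | c
  · have h3 : u < u' := by
      rcases lt_or_gt_of_ne e1 with h | h
      · exact h
      · have := L.rowA h hu hru.symm hPu (by omega) c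
        omega
    have h4 : v < v' := by omega
    rcases Nat.mod_two_eq_zero_or_one (lv v) with d | d
    · have := L.sameA h4 hv' hrv hPv' (k1 (by omega)) d (by omega)
      omega
    · have := L.diffB hv hv' hrv hPv' (div_lt_of_mod s v v' h4 (k2 (by omega))) d (by omega)
      omega
  · have h3 : u' < u := by
      rcases lt_or_gt_of_ne e1 with h | h
      · have := L.rowB h hu' hru hPu' c (by omega)
        omega
      · exact h
    have h4 : v' < v := by omega
    rcases Nat.mod_two_eq_zero_or_one (lv v) with d | d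
    · have := L.diffA hv' hv hrv.symm hPv (div_lt_of_mod s v' v h4 (k2 (by omega)).symm)
        (by omega) d
      omega
    · have := L.sameB h4 hv hrv.symm hPv (k1 (by omega)).symm (by omega) d
      omega

theorem crossV (L : Lay n s K F f row lv pos P) {u v u' v' : ℕ}
    (hu : u < n) (hv : v < n) (hu' : u' < n) (hv' : v' < n)
    (h1 : ¬ (u < u' ∧ v' < v)) (h2 : ¬ (u' < u ∧ v < v'))
    (hru : row u = row u') (hrv : row v = row v') (hPu : ¬ P (row u)) (hPv : P (row v))
    (hb : blk P (row u) < blk P (row v))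
    (hcu : lv u % 2 = lv u' % 2) (hcv : lv v % 2 = lv v' % 2)
    (k1 : lv u % 2 = lv v % 2 → v / s = v' / s)
    (k2 : lv u % 2 ≠ lv v % 2 → v % s = v' % s) :
    NC (pos u) (pos v) (pos u') (pos v') := by
  refine nc_bip (L.pblk u v hu hv hb) (L.pblk u v' hu hv' (by rwa [← hrv]))
    (L.pblk u' v hu' hv (by rwa [← hru])) (L.pblk u' v' hu' hv' (by rwa [← hru, ← hrv])) ?_ ?_
  · exact L.crossV_aux hu hv hu' hv' h1 h2 hru hrv hPu hPv hcu hcv k1 k2
  · exact L.crossV_aux hu' hv' hu hv h2 h1 hru.symm hrv.symm (hru ▸ hPu) (hrv ▸ hPv) hcu.symm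
      hcv.symm (fun h => (k1 (by omega)).symm) (fun h => (k2 (by omega)).symm)

/-- edges from a row with `P` to the next row -/
theorem crossU_aux (L : Lay n s K F f row lv pos P) {u v u' v' : ℕ}
    (hu : u < n) (hv : v < n) (hu' : u' < n) (hv' : v' < n)
    (h1 : ¬ (u < u' ∧ v' < v)) (h2 : ¬ (u' < u ∧ v < v'))
    (hru : row u = row u') (hrv : row v = row v') (hPu : P (row u)) (hPv : ¬ P (row v))
    (hcu : lv u % 2 = lv u' % 2) (hcv : lv v % 2 = lv v' % 2)
    (k1 : lv u % 2 = lv v % 2 → u / s = u' / s)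
    (k2 : lv u % 2 ≠ lv v % 2 → u % s = u' % s) : ¬ (pos u < pos u' ∧ pos v < pos v') := by
  rintro ⟨g1, g2⟩
  have e1 : u ≠ u' := by rintro rfl; omega
  have e2 : v ≠ v' := by rintro rfl; omega
  have hPu' : P (row u') := hru ▸ hPu
  have hPv' : ¬ P (row v') := hrv ▸ hPv
  rcases Nat.mod_two_eq_zero_or_one (lv v) with c | c
  · have h3 : v < v' := by
      rcases lt_or_gt_of_ne e2 with h | h
      · exact h
      · have := L.rowA h hv hrv.symm hPv (by omega) c
        omega
    have h4 : u < u' := by omega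
    rcases Nat.mod_two_eq_zero_or_one (lv u) with d | d
    · have := L.sameA h4 hu' hru hPu' (k1 (by omega)) d (by omega)
      omega
    · have := L.diffB hu hu' hru hPu' (div_lt_of_mod s u u' h4 (k2 (by omega))) d (by omega)
      omega
  · have h3 : v' < v := by
      rcases lt_or_gt_of_ne e2 with h | h
      · have := L.rowB h hv' hrv hPv' c (by omega)
        omega
      · exact h
    have h4 : u' < u := by omega
    rcases Nat.mod_two_eq_zero_or_one (lv u) with d | d
    · have := L.diffA hu' hu hru.symm hPu (div_lt_of_mod s u' u h4 (k2 (by omega)).symm)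
        (by omega) d
      omega
    · have := L.sameB h4 hu hru.symm hPu (k1 (by omega)).symm (by omega) d
      omega

theorem crossU (L : Lay n s K F f row lv pos P) {u v u' v' : ℕ}
    (hu : u < n) (hv : v < n) (hu' : u' < n) (hv' : v' < n)
    (h1 : ¬ (u < u' ∧ v' < v)) (h2 : ¬ (u' < u ∧ v < v'))
    (hru : row u = row u') (hrv : row v = row v') (hPu : P (row u)) (hPv : ¬ P (row v))
    (hb : blk P (row u) < blk P (row v))
    (hcu : lv u % 2 = lv u' % 2) (hcv : lv v % 2 = lv v' % 2)
    (k1 : lv u % 2 = lv v % 2 → u / s = u' / s)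
    (k2 : lv u % 2 ≠ lv v % 2 → u % s = u' % s) :
    NC (pos u) (pos v) (pos u') (pos v') := by
  refine nc_bip (L.pblk u v hu hv hb) (L.pblk u v' hu hv' (by rwa [← hrv]))
    (L.pblk u' v hu' hv (by rwa [← hru])) (L.pblk u' v' hu' hv' (by rwa [← hru, ← hrv])) ?_ ?_
  · exact L.crossU_aux hu hv hu' hv' h1 h2 hru hrv hPu hPv hcu hcv k1 k2
  · exact L.crossU_aux hu' hv' hu hv h2 h1 hru.symm hrv.symm (hru ▸ hPu) (hrv ▸ hPv) hcu.symm
      hcv.symm (fun h => (k1 (by omega)).symm) (fun h => (k2 (by omega)).symm)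

end Lay

end H94SQ
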