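import Mathlib

/-!
# Greedy levels of an ordered graph

The vertices are natural numbers, `E u v` means that `u < v` are joined by an edge.
-/

set_option autoImplicit false

namespace H94SQ

/-- Greedy levels: `v + 1` stays in the level of `v` if and only if an edge from an earlier
level reaches it or passes over it. -/
noncomputable def lev (E : ℕ → ℕ → Prop) : ℕ → ℕ
  | 0 => 0
  | (v + 1) =>
    haveI := Classical.propDecidable
      (∃ u : Fin (v + 1), ∃ w, v + 1 ≤ w ∧ E u w ∧ lev E u < lev E v)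
    if ∃ u : Fin (v + 1), ∃ w, v + 1 ≤ w ∧ E u w ∧ lev E u < lev E v
    then lev E v else lev E v + 1

variable {E : ℕ → ℕ → Prop}

theorem lev_zero : lev E 0 = 0 := by rw [lev]

theorem lev_succ_of (v : ℕ)
    (h : ∃ u w, u < v + 1 ∧ v + 1 ≤ w ∧ E u w ∧ lev E u < lev E v) :
    lev E (v + 1) = lev E v := by
  obtain ⟨u, w, hu, hw, hE, hl⟩ := h
  rw [lev, if_pos]
  exact ⟨⟨u, hu⟩, w, hw, hE, hl⟩

theorem lev_succ_not (v : ℕ)
    (h : ¬ ∃ u w, u < v + 1 ∧ v + 1 ≤ w ∧ E u w ∧ lev E u < lev E v) :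
    lev E (v + 1) = lev E v + 1 := by
  rw [lev, if_neg]
  rintro ⟨u, w, hw, hE, hl⟩
  exact h ⟨u, w, u.2, hw, hE, hl⟩

theorem lev_le_succ (v : ℕ) : lev E v ≤ lev E (v + 1) := by
  by_cases h : ∃ u w, u < v + 1 ∧ v + 1 ≤ w ∧ E u w ∧ lev E u < lev E v
  · rw [lev_succ_of v h]
  · rw [lev_succ_not v h]; omega

theorem lev_succ_le (v : ℕ) : lev E (v + 1) ≤ lev E v + 1 := by
  by_cases h : ∃ u w, u < v + 1 ∧ v + 1 ≤ w ∧ E u w ∧ lev E u < lev E v
  · rw [lev_succ_of v h]; omega
  · rw [lev_succ_not v h]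

theorem lev_mono : Monotone (lev E) := monotone_nat_of_le_succ lev_le_succ

theorem lev_le_self (v : ℕ) : lev E v ≤ v := by
  induction v with
  | zero => rw [lev_zero]
  | succ v ih => exact (lev_succ_le v).trans (by omega)

theorem lev_edge {u w : ℕ} (huw : u < w) (hE : E u w) : lev E w ≤ lev E u + 1 := by
  have key : ∀ v, u ≤ v → v ≤ w → lev E v ≤ lev E u + 1 := by
    intro v huv
    induction v, huv using Nat.le_induction with
    | base => intro _; omega
    | succ v huv ih =>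
      intro hvw
      have h1 := ih (by omega)
      by_cases h2 : lev E u < lev E v
      · rw [lev_succ_of v ⟨u, w, by omega, hvw, hE, h2⟩]
        exact h1
      · have := lev_succ_le (E := E) v
        omega
  exact key w huw.le le_rfl

theorem lev_witness {x y : ℕ} (hxy : x < y) (h : lev E x = lev E y) :
    ∃ u w, E u w ∧ lev E u < lev E y ∧ y ≤ w := by
  obtain ⟨v, rfl⟩ : ∃ v, y = v + 1 := ⟨y - 1, by omega⟩
  have h1 : lev E x ≤ lev E v := lev_mono (by omega)
  have h2 : lev E v ≤ lev E (v + 1) := lev_le_succ v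
  by_contra hcon
  have h3 : ¬ ∃ u w, u < v + 1 ∧ v + 1 ≤ w ∧ E u w ∧ lev E u < lev E v := by
    rintro ⟨u, w, _, hw, hE, hl⟩
    exact hcon ⟨u, w, hE, by omega, hw⟩
  have := lev_succ_not v h3
  omega

/-- An edge inside a level which is not nested in any edge ends at the last vertex of its
level. -/
theorem lev_top {Q : ℕ → ℕ → Prop}
    (hQ : ∀ x y u w, Q x y → E u w → ¬ (u < x ∧ y < w)) {x y : ℕ} (hxy : Q x y)
    (h : lev E x = lev E y) (z : ℕ) (hz : lev E z = lev E y) : z ≤ y := by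
  by_contra hcon
  obtain ⟨u, w, hE, hl, hw⟩ := lev_witness (E := E) (x := y) (y := z) (by omega) hz.symm
  refine hQ x y u w hxy hE ⟨?_, by omega⟩
  by_contra hux
  have := lev_mono (E := E) (show x ≤ u by omega)
  omega

end H94SQ
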