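import Pool.Agent.H94.SQ.Final

/-!
# The two bounds
-/

set_option autoImplicit false

namespace H94SQ

/-- greedy choice of rows without two consecutive ones -/
def gP (S : ℕ → Prop) : ℕ → Prop
  | 0 => S 0
  | (t + 1) => S (t + 1) ∧ ¬ gP S t

theorem gP_sub {S : ℕ → Prop} {t : ℕ} (h : gP S t) : S t := by
  cases t with
  | zero => exact h
  | succ t => exact h.1

theorem gP_PP (S : ℕ → Prop) (t : ℕ) (h : gP S t) : ¬ gP S (t + 1) := fun h1 => h1.2 h

/-- rows with at most `s ^ 2` vertices -/
def small (row : ℕ → ℕ) (s t : ℕ) : Prop :=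
  ∀ x y, row x = t → row y = t → y < x + s * s

theorem base_bound {row : ℕ → ℕ} (hm : Monotone row) (s t : ℕ) :
    ∀ v, t < row v → (t - base (gP (small row s)) t) * (s * s) ≤ v := by
  induction t with
  | zero =>
    intro v _
    rw [Nat.zero_sub, zero_mul]
    exact Nat.zero_le _
  | succ t ih =>
    intro v hv
    by_cases h : gP (small row s) t ∨ gP (small row s) (t + 1)
    · rw [base_succ_of h, Nat.sub_self, zero_mul]
      exact Nat.zero_le _
    · rw [base_succ_not h]
      have hns : ¬ small row s (t + 1) := by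
        intro hs
        by_cases h1 : gP (small row s) t
        · exact h (Or.inl h1)
        · exact h (Or.inr ⟨hs, h1⟩)
      unfold small at hns
      push Not at hns
      obtain ⟨x, y, hx, hy, hxy⟩ := hns
      have h1 := ih x (by omega)
      have h2 : y < v := by
        by_contra hcon
        have := hm (show v ≤ y by omega)
        omega
      have h3 := base_le (P := gP (small row s)) t
      rw [show t + 1 - base (gP (small row s)) t = (t - base (gP (small row s)) t) + 1 by omega,
        add_mul, one_mul]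
      omega

/-- at most `26 (s + 1)` pages if `n ≤ s ^ 3` -/
theorem cube {n s : ℕ} (hs : 0 < s) (hn : n ≤ s * s * s) {G : SimpleGraph (Fin n)}
    {σ : Equiv.Perm (Fin n)} {c : Fin n → Fin n → Fin 2} (h : TwoQueue G σ c) :
    ∃ τ : Equiv.Perm (Fin n), ∃ d : Fin n → Fin n → Fin (26 * (s + 1)),
      ∀ a b x y : Fin n, G.Adj a b → G.Adj x y → τ a < τ b → τ x < τ y →
        d a b = d x y → ¬ (τ a < τ x ∧ τ x < τ b ∧ τ b < τ y) := by
  refine exists_stack h (gP (small (lev (gE G σ)) s)) (gP_PP _) hs (by omega) ?_ ?_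
    (fun k u v => tag_lt _ _ _ _ _ _ _ _)
  · intro x y _ hP hxy hle
    have h1 := gP_sub hP x y rfl hxy.symm
    have h2 : y / s ≤ x / s + s := by
      have h3 : y ≤ x + s * s := by omega
      calc y / s ≤ (x + s * s) / s := Nat.div_le_div_right h3
        _ = x / s + s := by rw [Nat.add_mul_div_right _ _ hs]
    omega
  · intro u hu _
    set t := lev (gE G σ) u with ht
    rcases Nat.eq_zero_or_pos t with h0 | h0
    · rw [h0]; omega
    · obtain ⟨r, hr⟩ : ∃ r, t = r + 1 := ⟨t - 1, by omega⟩
      have h1 := base_bound (row := lev (gE G σ)) lev_mono s r u (by omega)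
      have h2 : r - base (gP (small (lev (gE G σ)) s)) r < s := by
        by_contra hcon
        have h3 : s * (s * s) ≤ (r - base (gP (small (lev (gE G σ)) s)) r) * (s * s) :=
          Nat.mul_le_mul_right _ (by omega)
        have h4 : s * s * s = s * (s * s) := by ring
        omega
      have h3 := base_le (P := gP (small (lev (gE G σ)) s)) r
      rw [hr]
      by_cases h5 : gP (small (lev (gE G σ)) s) r ∨ gP (small (lev (gE G σ)) s) (r + 1)
      · rw [base_succ_of h5]; omega
      · rw [base_succ_not h5]; omega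

theorem lev_walk {n : ℕ} (G : SimpleGraph (Fin n)) (σ : Equiv.Perm (Fin n)) {a b : Fin n}
    (p : G.Walk a b) : lev (gE G σ) (σ b : ℕ) ≤ lev (gE G σ) (σ a : ℕ) + p.length := by
  induction p with
  | nil => simp
  | @cons u v w huv p ih =>
    have h1 : lev (gE G σ) (σ v : ℕ) ≤ lev (gE G σ) (σ u : ℕ) + 1 := by
      rcases lt_or_ge (σ u : ℕ) (σ v : ℕ) with h | h
      · exact lev_edge h ⟨u, v, huv, rfl, rfl, h⟩
      · have := lev_mono (E := gE G σ) h
        omega
    rw [SimpleGraph.Walk.length_cons]
    omega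

/-- at most `10 (D + 1)` pages if any two vertices are joined by a walk of length at most `D` -/
theorem diam {n D : ℕ} {G : SimpleGraph (Fin n)}
    {σ : Equiv.Perm (Fin n)} {c : Fin n → Fin n → Fin 2} (h : TwoQueue G σ c)
    (hD : ∀ a b : Fin n, ∃ p : G.Walk a b, p.length ≤ D) :
    ∃ τ : Equiv.Perm (Fin n), ∃ d : Fin n → Fin n → Fin (10 * (D + 1)),
      ∀ a b x y : Fin n, G.Adj a b → G.Adj x y → τ a < τ b → τ x < τ y →
        d a b = d x y → ¬ (τ a < τ x ∧ τ x < τ b ∧ τ b < τ y) := by
  have hblk : ∀ t, blk (fun _ => False) t = 0 := by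
    intro t
    induction t with
    | zero => rw [blk]
    | succ t ih => rw [blk_succ_not (by tauto), ih]
  refine exists_stack (s := 1) h (fun _ => False) (fun _ h => h.elim) (by omega) (by omega)
    (fun _ _ _ hf => hf.elim) ?_ ?_
  · intro u hu _
    have h1 := lev_walk G σ (hD (σ.symm ⟨0, by omega⟩) (σ.symm ⟨u, hu⟩)).choose
    have h2 := (hD (σ.symm ⟨0, by omega⟩) (σ.symm ⟨u, hu⟩)).choose_spec
    rw [Equiv.apply_symm_apply, Equiv.apply_symm_apply] at h1
    have h3 : lev (gE G σ) ((⟨u, hu⟩ : Fin n) : ℕ) ≤ 0 + D := by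
      refine h1.trans (Nat.add_le_add ?_ h2)
      exact (lev_le_self _)
    have h4 : lev (gE G σ) u ≤ 0 + D := h3
    omega
  · intro k u v
    exact tag_lt' _ _ _ _ _ _ _ _ (by rw [hblk, hblk])

end H94SQ
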